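import Mathlib

-- merged part: Pool.Agent.Work.MP_9e5f8f_co.Terms
section
/-! Rooted tree terms and the recursion for counting homomorphisms out of a tree. -/

set_option autoImplicit false

namespace Pool.Agent.Work.MP_9e5f8f_co

open Finset

/-- Terms describing rooted trees: a single vertex, gluing two roots, adding a new root. -/
inductive RT : Type
  | one : RT
  | mul : RT → RT → RT
  | up : RT → RT

/-- Number of edges of the rooted tree. -/
def RT.size : RT → ℕ
  | .one => 0
  | .mul a b => a.size + b.size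
  | .up a => a.size + 1

open Classical in
/-- The adjacency operator. -/
noncomputable def adjOp {W : Type} [Fintype W] (G : SimpleGraph W) (y : W → ℝ) (i : W) : ℝ :=
  ∑ j, if G.Adj i j then y j else 0

/-- The vector of rooted homomorphism counts. -/
noncomputable def ev {W : Type} [Fintype W] (G : SimpleGraph W) : RT → W → ℝ
  | .one => fun _ => 1
  | .mul a b => fun i => ev G a i * ev G b i
  | .up a => adjOp G (ev G a)

open Classical in
/-- Weighted homomorphism count. -/
noncomputable def wHom {V W : Type} [Fintype V] [DecidableEq V] [Fintype W] (S : SimpleGraph V)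
    (G : SimpleGraph W) (ω : V → W → ℝ) : ℝ :=
  ∑ f : V → W, if (∀ a b, S.Adj a b → G.Adj (f a) (f b)) then ∏ v, ω v (f v) else 0

lemma card_hom_eq {V W : Type} [Fintype V] [DecidableEq V] [Fintype W] (S : SimpleGraph V)
    (G : SimpleGraph W) : (Nat.card (S →g G) : ℝ) = wHom S G (fun _ _ => 1) := by
  classical
  have e : (S →g G) ≃ {f : V → W // ∀ a b, S.Adj a b → G.Adj (f a) (f b)} :=
    { toFun := fun f => ⟨f, fun a b h => f.map_rel h⟩
      invFun := fun f => ⟨f.1, fun {a b} h => f.2 a b h⟩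
      left_inv := fun f => rfl
      right_inv := fun f => rfl }
  rw [Nat.card_congr e, Nat.card_eq_fintype_card, Fintype.card_subtype]
  unfold wHom
  simp only [Finset.prod_const_one]
  rw [Finset.sum_boole]

lemma wHom_leaf {V W : Type} [Fintype V] [DecidableEq V] [Fintype W] (S : SimpleGraph V)
    (G : SimpleGraph W) (ω : V → W → ℝ) (l u : V) (hlu : S.Adj l u)
    (hu : ∀ w, S.Adj l w → w = u) :
    wHom S G ω = wHom (S.induce ({l}ᶜ : Set V)) G
      (fun v i => if (v : V) = u then ω u i * adjOp G (ω l) i else ω v i) := by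
  classical
  have hul : u ≠ l := hlu.ne.symm
  let V' := ↥({l}ᶜ : Set V)
  let u' : V' := ⟨u, hul⟩
  let ext : (V' → W) → W → V → W := fun g x v => if h : v = l then x else g ⟨v, h⟩
  let e : ((V' → W) × W) ≃ (V → W) :=
    { toFun := fun p => ext p.1 p.2
      invFun := fun f => (fun v => f v, f l)
      left_inv := by
        rintro ⟨g, x⟩
        refine Prod.ext ?_ ?_
        · funext v
          have : (v : V) ≠ l := v.2
          simp only [ext, this, dite_false]
          rfl
        · simp [ext]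
      right_inv := by
        intro f
        funext v
        by_cases h : v = l
        · simp [ext, h]
        · simp [ext, h] }
  have hext1 : ∀ g x, ext g x l = x := by intro g x; simp [ext]
  have hext2 : ∀ g x (v : V'), ext g x v = g v := by
    intro g x v
    have : (v : V) ≠ l := v.2
    simp only [ext, this, dite_false]
    rfl
  have hhom : ∀ g x, (∀ a b, S.Adj a b → G.Adj (ext g x a) (ext g x b)) ↔
      ((∀ a b : V', (S.induce ({l}ᶜ : Set V)).Adj a b → G.Adj (g a) (g b)) ∧ G.Adj (g u') x) := by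
    intro g x
    constructor
    · intro h
      refine ⟨fun a b hab => ?_, ?_⟩
      · have := h a b hab
        rwa [hext2, hext2] at this
      · have := h u l hlu.symm
        rw [hext1] at this
        rw [← hext2 g x u']
        exact this
    · rintro ⟨h1, h2⟩ a b hab
      by_cases ha : a = l
      · subst ha
        have hb := hu b hab
        subst hb
        rw [hext1]
        have := hext2 g x u'
        simp only [u'] at this
        rw [this]
        exact h2.symm
      · by_cases hb : b = l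
        · subst hb
          have ha' := hu a hab.symm
          subst ha'
          rw [hext1]
          have := hext2 g x u'
          simp only [u'] at this
          rw [this]
          exact h2
        · have h3 := h1 ⟨a, ha⟩ ⟨b, hb⟩ hab
          have e1 := hext2 g x ⟨a, ha⟩
          have e2 := hext2 g x ⟨b, hb⟩
          simp only at e1 e2
          rw [e1, e2]
          exact h3
  have hprod : ∀ g x, ∏ v, ω v (ext g x v) = ω l x * ∏ v : V', ω v (g v) := by
    intro g x
    rw [← Finset.mul_prod_erase Finset.univ _ (Finset.mem_univ l), hext1]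
    congr 1
    rw [Finset.prod_subtype (Finset.univ.erase l) (p := fun v => v ∈ ({l}ᶜ : Set V))]
    · exact Finset.prod_congr rfl fun v _ => by rw [hext2]
    · intro v; simp
  have hprod2 : ∀ g : V' → W,
      ∏ v : V', (if (v : V) = u then ω u (g v) * adjOp G (ω l) (g v) else ω v (g v)) =
      (∏ v : V', ω v (g v)) * adjOp G (ω l) (g u') := by
    intro g
    rw [← Finset.mul_prod_erase Finset.univ _ (Finset.mem_univ u'),
      ← Finset.mul_prod_erase Finset.univ (fun v : V' => ω v (g v)) (Finset.mem_univ u')]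
    have : ∏ v ∈ Finset.univ.erase u',
        (if (v : V) = u then ω u (g v) * adjOp G (ω l) (g v) else ω v (g v)) =
        ∏ v ∈ Finset.univ.erase u', ω v (g v) := by
      refine Finset.prod_congr rfl fun v hv => ?_
      have : (v : V) ≠ u := fun h => (Finset.mem_erase.mp hv).1 (Subtype.ext h)
      simp [this]
    rw [this]
    simp only [u', if_true]
    ring
  unfold wHom
  rw [← e.sum_comp, Fintype.sum_prod_type]
  refine Finset.sum_congr (by congr!) fun g _ => ?_
  simp only [e, Equiv.coe_fn_mk]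
  by_cases hg : ∀ a b : V', (S.induce ({l}ᶜ : Set V)).Adj a b → G.Adj (g a) (g b)
  · rw [if_pos hg]
    have := hprod2 g
    refine Eq.trans ?_ (Eq.trans this.symm (by congr!))
    unfold adjOp
    rw [Finset.mul_sum]
    refine Finset.sum_congr rfl fun x _ => ?_
    by_cases hx : G.Adj (g u') x
    · rw [if_pos ((hhom g x).mpr ⟨hg, hx⟩), if_pos hx]
      have := hprod g x
      refine Eq.trans (by congr!) (this.trans (mul_comm _ _))
    · rw [if_neg (fun h => hx ((hhom g x).mp h).2), if_neg hx, mul_zero]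
  · rw [if_neg hg]
    refine Finset.sum_eq_zero fun x _ => ?_
    rw [if_neg (fun h => hg ((hhom g x).mp h).1)]

lemma exists_term_aux (m : ℕ) : ∀ (V : Type) [Fintype V] [DecidableEq V] (S : SimpleGraph V), S.IsTree →
    Fintype.card V = m + 1 → ∀ τ : V → RT, ∃ t : RT, t.size = m + ∑ v, (τ v).size ∧
      ∀ (n : ℕ) (G : SimpleGraph (Fin n)),
        wHom S G (fun v => ev G (τ v)) = ∑ i, ev G t i := by
  induction m with
  | zero =>
    intro V _ _ S _ hc τ
    classical
    obtain ⟨r, hr⟩ := Fintype.card_eq_one_iff.mp hc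
    letI : Unique V := ⟨⟨r⟩, hr⟩
    refine ⟨τ default, by simp, fun n G => ?_⟩
    unfold wHom
    have hS : ∀ a b, ¬ S.Adj a b := fun a b h => h.ne (Subsingleton.elim _ _)
    simp only [hS, IsEmpty.forall_iff, implies_true, if_true, Finset.univ_unique,
      Finset.prod_singleton]
    exact Fintype.sum_equiv (Equiv.funUnique V (Fin n)) _ (fun i => ev G (τ default) i)
      (fun f => rfl)
  | succ m ih =>
    intro V _ _ S hS hc τ
    classical
    have : Nontrivial V := Fintype.one_lt_card_iff_nontrivial.mp (by omega)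
    obtain ⟨l, hl⟩ := hS.exists_vert_degree_one_of_nontrivial
    obtain ⟨u, hlu, hu⟩ := SimpleGraph.degree_eq_one_iff_existsUnique_adj.mp hl
    have hul : u ≠ l := hlu.ne.symm
    have hS' : (S.induce ({l}ᶜ : Set V)).IsTree :=
      ⟨hS.connected.induce_compl_singleton_of_degree_eq_one hl, hS.isAcyclic.induce _⟩
    have hc' : Fintype.card ↥({l}ᶜ : Set V) = m + 1 := by
      rw [Fintype.card_compl_set]; simp [hc]
    obtain ⟨t, ht1, ht2⟩ := ih _ _ hS' hc'
      (fun v => if (v : V) = u then RT.mul (τ u) (RT.up (τ l)) else τ v)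
    refine ⟨t, ?_, fun n G => ?_⟩
    · rw [ht1]
      let u' : ↥({l}ᶜ : Set V) := ⟨u, hul⟩
      rw [← Finset.add_sum_erase Finset.univ _ (Finset.mem_univ l),
        Finset.sum_subtype (Finset.univ.erase l) (p := fun v => v ∈ ({l}ᶜ : Set V))
          (by intro v; simp),
        ← Finset.add_sum_erase Finset.univ _ (Finset.mem_univ u'),
        ← Finset.add_sum_erase Finset.univ (fun v : ↥({l}ᶜ : Set V) => (τ v).size)
          (Finset.mem_univ u')]
      have : ∑ v ∈ Finset.univ.erase u',
          (if (v : V) = u then RT.mul (τ u) (RT.up (τ l)) else τ v).size =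
          ∑ v ∈ Finset.univ.erase u', (τ v).size := by
        refine Finset.sum_congr rfl fun v hv => ?_
        have : (v : V) ≠ u := fun h => (Finset.mem_erase.mp hv).1 (Subtype.ext h)
        simp [this]
      rw [this]
      simp only [u', if_true, RT.size]
      ring
    · rw [wHom_leaf S G _ l u hlu hu, ← ht2 n G]
      congr 1
      funext v i
      by_cases h : (v : V) = u
      · simp [h, ev]
      · simp [h]

/-- Every tree has a term computing its homomorphism counts. -/
theorem exists_term {m : ℕ} (S : SimpleGraph (Fin m)) (hS : S.IsTree) :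
    ∃ t : RT, t.size + 1 = m ∧ ∀ (n : ℕ) (G : SimpleGraph (Fin n)),
      (Nat.card (S →g G) : ℝ) = ∑ i, ev G t i := by
  have hm : 0 < m := Fin.pos_iff_nonempty.mpr hS.connected.nonempty
  obtain ⟨t, h1, h2⟩ := exists_term_aux (m - 1) (Fin m) S hS (by simp; omega) (fun _ => RT.one)
  refine ⟨t, by simp [RT.size] at h1; omega, fun n G => ?_⟩
  rw [card_hom_eq, ← h2]
  rfl

lemma adjOp_symm {W : Type} [Fintype W] (G : SimpleGraph W) (a b : W → ℝ) :
    ∑ i, a i * adjOp G b i = ∑ i, adjOp G a i * b i := by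
  unfold adjOp
  simp only [Finset.mul_sum, Finset.sum_mul]
  rw [Finset.sum_comm]
  refine Finset.sum_congr rfl fun i _ => Finset.sum_congr rfl fun j _ => ?_
  by_cases h : G.Adj i j
  · simp [h, h.symm]
  · have h' : ¬ G.Adj j i := fun h' => h h'.symm
    simp [h, h']

lemma ev_size_zero {W : Type} [Fintype W] (G : SimpleGraph W) (t : RT) (h : t.size = 0) :
    ev G t = fun _ => 1 := by
  induction t with
  | one => rfl
  | mul a b iha ihb =>
    simp only [RT.size] at h
    simp [ev, iha (by omega), ihb (by omega)]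
  | up a _ => simp [RT.size] at h

lemma reroot_aux (t : RT) (h : 1 ≤ t.size) : ∀ s : RT, ∃ t' : RT, t'.size + 1 = t.size + s.size ∧
    ∀ (n : ℕ) (G : SimpleGraph (Fin n)), ∑ i, ev G s i * ev G t i = ∑ i, ev G (RT.up t') i := by
  induction t with
  | one => simp [RT.size] at h
  | mul a b iha ihb =>
    intro s
    simp only [RT.size] at h ⊢
    by_cases ha : 1 ≤ a.size
    · obtain ⟨t', h1, h2⟩ := iha ha (RT.mul s b)
      refine ⟨t', by simp only [RT.size] at h1; omega, fun n G => ?_⟩
      rw [← h2]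
      refine Finset.sum_congr rfl fun i _ => ?_
      simp only [ev]; ring
    · obtain ⟨t', h1, h2⟩ := ihb (by omega) (RT.mul s a)
      refine ⟨t', by simp only [RT.size] at h1; omega, fun n G => ?_⟩
      rw [← h2]
      refine Finset.sum_congr rfl fun i _ => ?_
      simp only [ev]; ring
  | up a iha =>
    intro s
    simp only [RT.size] at h ⊢
    by_cases ha : 1 ≤ a.size
    · obtain ⟨t', h1, h2⟩ := iha ha (RT.up s)
      refine ⟨t', by simp only [RT.size] at h1; omega, fun n G => ?_⟩
      rw [← h2]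
      simp only [ev]
      exact adjOp_symm G _ _
    · refine ⟨s, by omega, fun n G => ?_⟩
      simp only [ev]
      rw [adjOp_symm, ev_size_zero G a (by omega)]
      simp

/-- Rerooting at a leaf. -/
lemma reroot (t : RT) (h : 1 ≤ t.size) : ∃ t' : RT, t'.size + 1 = t.size ∧
    ∀ (n : ℕ) (G : SimpleGraph (Fin n)), ∑ i, ev G t i = ∑ i, ev G (RT.up t') i := by
  obtain ⟨t', h1, h2⟩ := reroot_aux t h RT.one
  refine ⟨t', by simpa [RT.size] using h1, fun n G => ?_⟩
  rw [← h2]; simp [ev]

lemma ev_size_one {W : Type} [Fintype W] (G : SimpleGraph W) (t : RT) (h : t.size = 1) :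
    ev G t = adjOp G (fun _ => 1) := by
  induction t with
  | one => simp [RT.size] at h
  | mul a b iha ihb =>
    simp only [RT.size] at h
    by_cases ha : a.size = 0
    · simp [ev, ev_size_zero G a ha, ihb (by omega)]
    · simp [ev, ev_size_zero G b (by omega), iha (by omega)]
  | up a _ =>
    simp only [RT.size] at h
    simp [ev, ev_size_zero G a (by omega)]

lemma ev_size_two {W : Type} [Fintype W] (G : SimpleGraph W) (t : RT) (h : t.size = 2) :
    ev G t = (fun i => adjOp G (fun _ => 1) i * adjOp G (fun _ => 1) i) ∨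
      ev G t = adjOp G (adjOp G (fun _ => 1)) := by
  induction t with
  | one => simp [RT.size] at h
  | mul a b iha ihb =>
    simp only [RT.size] at h
    by_cases ha : a.size = 0
    · simpa [ev, ev_size_zero G a ha] using ihb (by omega)
    · by_cases hb : b.size = 0
      · simpa [ev, ev_size_zero G b hb] using iha (by omega)
      · left
        simp [ev, ev_size_one G a (by omega), ev_size_one G b (by omega)]
  | up a _ =>
    simp only [RT.size] at h
    right
    simp [ev, ev_size_one G a (by omega)]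

lemma ev_nonneg {W : Type} [Fintype W] (G : SimpleGraph W) (t : RT) : ∀ i, 0 ≤ ev G t i := by
  induction t with
  | one => intro i; simp [ev]
  | mul a b iha ihb => intro i; exact mul_nonneg (iha i) (ihb i)
  | up a iha =>
    intro i
    simp only [ev, adjOp]
    refine Finset.sum_nonneg fun j _ => ?_
    split_ifs
    · exact iha j
    · exact le_rfl

end Pool.Agent.Work.MP_9e5f8f_co
end

-- merged part: Pool.Agent.Work.MP_9e5f8f_co.Move
section
/-! Two injections between sets of homomorphisms. -/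

set_option autoImplicit false

namespace Pool.Agent.Work.MP_9e5f8f_co

lemma finite_hom {V W : Type} [Finite V] [Finite W] (S : SimpleGraph V) (G : SimpleGraph W) :
    Finite (S →g G) :=
  Finite.of_injective (fun f : S →g G => (f : V → W)) DFunLike.coe_injective

lemma card_hom_mono {V W W' : Type} [Finite V] [Finite W'] (S : SimpleGraph V)
    (G : SimpleGraph W) (G' : SimpleGraph W') (f : W → W') (hf : Function.Injective f)
    (hadj : ∀ a b, G.Adj a b → G'.Adj (f a) (f b)) :
    Nat.card (S →g G) ≤ Nat.card (S →g G') := by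
  have := finite_hom S G'
  let F : (S →g G) → (S →g G') := fun h =>
    ⟨fun v => f (h v), fun {a b} hab => hadj _ _ (h.map_rel hab)⟩
  refine Nat.card_le_card_of_injective F fun h1 h2 h => ?_
  ext v
  exact hf (congrArg (fun g : S →g G' => g v) h)

/-- Moving a branch by a reflection does not decrease the number of homomorphisms. -/
lemma card_hom_move {V W W' : Type} [Finite V] [Finite W'] (S : SimpleGraph V)
    (G : SimpleGraph W) (G' : SimpleGraph W') (μ : W) (B Z : W → Prop) (Z' : W' → Prop)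
    (φ ι : W → W') (hμ : ¬ B μ) (hB : ∀ a b, G.Adj a b → B a → B b ∨ b = μ)
    (hZ : ∀ a, Z a → B a) (hφι : φ μ = ι μ)
    (hφinj : ∀ a b, ¬ Z a → ¬ Z b → φ a = φ b → a = b)
    (hφadj : ∀ a b, ¬ Z a → ¬ Z b → G.Adj a b → G'.Adj (φ a) (φ b))
    (hφZ : ∀ a, ¬ Z a → ¬ Z' (φ a))
    (hιinj : ∀ a b, (B a ∨ a = μ) → (B b ∨ b = μ) → ι a = ι b → a = b)
    (hιadj : ∀ a b, (B a ∨ a = μ) → (B b ∨ b = μ) → G.Adj a b → G'.Adj (ι a) (ι b))
    (hιZ : ∀ a, Z a → Z' (ι a)) :
    Nat.card (S →g G) ≤ Nat.card (S →g G') := by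
  classical
  have := finite_hom S G'
  let K : (S →g G) → V → Prop := fun h v =>
    ∃ z, Z (h z) ∧ Relation.ReflTransGen (fun a b => S.Adj a b ∧ B (h b)) z v
  let K' : (V → W') → V → Prop := fun h v =>
    ∃ z, Z' (h z) ∧ Relation.ReflTransGen (fun a b => S.Adj a b ∧ h b ≠ ι μ) z v
  have hKB : ∀ h v, K h v → B (h v) := by
    rintro h v ⟨z, hz, hr⟩
    induction hr with
    | refl => exact hZ _ hz
    | tail _ h2 _ => exact h2.2
  have hKZ : ∀ h v, ¬ K h v → ¬ Z (h v) := fun h v hK hz => hK ⟨v, hz, .refl⟩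
  have hKstep : ∀ h a b, K h a → S.Adj a b → K h b ∨ h b = μ := by
    rintro h a b hK hab
    rcases hB _ _ (h.map_rel hab) (hKB h a hK) with hb | hb
    · obtain ⟨z, hz, hr⟩ := hK
      exact Or.inl ⟨z, hz, hr.tail ⟨hab, hb⟩⟩
    · exact Or.inr hb
  let f : (S →g G) → V → W' := fun h v => if K h v then ι (h v) else φ (h v)
  have hf1 : ∀ h v, K h v → f h v = ι (h v) := fun h v hK => by simp [f, hK]
  have hf2 : ∀ h v, ¬ K h v → f h v = φ (h v) := fun h v hK => by simp [f, hK]
  have hfadj : ∀ h a b, S.Adj a b → G'.Adj (f h a) (f h b) := by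
    intro h a b hab
    have hG := h.map_rel hab
    by_cases ha : K h a
    · by_cases hb : K h b
      · rw [hf1 h a ha, hf1 h b hb]
        exact hιadj _ _ (Or.inl (hKB h a ha)) (Or.inl (hKB h b hb)) hG
      · have hbμ : h b = μ := (hKstep h a b ha hab).resolve_left hb
        rw [hf1 h a ha, hf2 h b hb, hbμ, hφι, ← hbμ]
        exact hιadj _ _ (Or.inl (hKB h a ha)) (Or.inr hbμ) hG
    · by_cases hb : K h b
      · have haμ : h a = μ := (hKstep h b a hb hab.symm).resolve_left ha
        rw [hf1 h b hb, hf2 h a ha, haμ, hφι, ← haμ]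
        exact hιadj _ _ (Or.inr haμ) (Or.inl (hKB h b hb)) hG
      · rw [hf2 h a ha, hf2 h b hb]
        exact hφadj _ _ (hKZ h a ha) (hKZ h b hb) hG
  have hKK : ∀ h v, K' (f h) v ↔ K h v := by
    intro h v
    constructor
    · rintro ⟨z, hz, hr⟩
      induction hr with
      | refl =>
        by_contra hK
        rw [hf2 h z hK] at hz
        exact hφZ _ (hKZ h z hK) hz
      | @tail a b _ h2 ih =>
        by_contra hK
        have hbμ : h b = μ := (hKstep h a b ih h2.1).resolve_left hK
        exact h2.2 (by rw [hf2 h b hK, hbμ, hφι])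
    · rintro ⟨z, hz, hr⟩
      refine ⟨z, ?_, ?_⟩
      · rw [hf1 h z ⟨z, hz, .refl⟩]; exact hιZ _ hz
      · induction hr with
        | refl => exact .refl
        | @tail a b h1 h2 ih =>
          refine ih.tail ⟨h2.1, ?_⟩
          rw [hf1 h b ⟨z, hz, h1.tail h2⟩]
          intro heq
          have := hιinj _ _ (Or.inl h2.2) (Or.inr rfl) heq
          exact hμ (this ▸ h2.2)
  let F : (S →g G) → (S →g G') := fun h => ⟨f h, fun {a b} hab => hfadj h a b hab⟩
  refine Nat.card_le_card_of_injective F fun h1 h2 h => ?_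
  have hff : f h1 = f h2 := congrArg (fun g : S →g G' => (g : V → W')) h
  ext v
  have hiff : K h1 v ↔ K h2 v := by rw [← hKK, ← hKK, hff]
  have hv := congrFun hff v
  by_cases hK : K h1 v
  · have hK2 := hiff.mp hK
    rw [hf1 h1 v hK, hf1 h2 v hK2] at hv
    exact hιinj _ _ (Or.inl (hKB _ _ hK)) (Or.inl (hKB _ _ hK2)) hv
  · have hK2 : ¬ K h2 v := fun h => hK (hiff.mpr h)
    rw [hf2 h1 v hK, hf2 h2 v hK2] at hv
    exact hφinj _ _ (hKZ _ _ hK) (hKZ _ _ hK2) hv

end Pool.Agent.Work.MP_9e5f8f_co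
end

-- merged part: Pool.Agent.Work.MP_9e5f8f_co.Spider
section
/-! Spiders (trees with at most three leaves). -/

set_option autoImplicit false

namespace Pool.Agent.Work.MP_9e5f8f_co

/-- The path on `Fin n` with the edge `(c-1, c)` replaced by the edge `(c-1, x)`. -/
def spider (n c x : ℕ) : SimpleGraph (Fin n) where
  Adj i j := i.val ≠ j.val ∧ ((i.val + 1 = j.val ∧ j.val ≠ c) ∨ (j.val + 1 = i.val ∧ i.val ≠ c) ∨
    (i.val + 1 = c ∧ j.val = x) ∨ (j.val + 1 = c ∧ i.val = x))
  symm := ⟨fun i j h => ⟨h.1.symm, by omega⟩⟩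
  loopless := ⟨fun i h => h.1 rfl⟩

lemma spider_adj {n c x : ℕ} {i j : Fin n} : (spider n c x).Adj i j ↔
    i.val ≠ j.val ∧ ((i.val + 1 = j.val ∧ j.val ≠ c) ∨ (j.val + 1 = i.val ∧ i.val ≠ c) ∨
    (i.val + 1 = c ∧ j.val = x) ∨ (j.val + 1 = c ∧ i.val = x)) := Iff.rfl

variable {V : Type} [Finite V] (S : SimpleGraph V)

lemma path_le_spider (n c : ℕ) :
    Nat.card (S →g SimpleGraph.pathGraph n) ≤ Nat.card (S →g spider n c c) := by
  refine card_hom_mono S _ _ id Function.injective_id fun a b h => ?_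
  rw [SimpleGraph.pathGraph_adj] at h
  simp only [id, spider_adj]
  omega

lemma spider_move (n c x y t : ℕ) (hcx : c ≤ x) (hxy : y = x + 2 * t) (hn : x + y + 1 ≤ n + c) :
    Nat.card (S →g spider n c x) ≤ Nat.card (S →g spider n c y) := by
  rcases Nat.eq_zero_or_pos t with rfl | ht
  · simp [hxy]
  have hμ : x + t < n := by omega
  let ι : Fin n → Fin n := fun j =>
    if h : c ≤ j.val ∧ j.val ≤ x + t then ⟨x + y - j.val, by omega⟩ else j
  have hι : ∀ j : Fin n, (ι j).val = if c ≤ j.val ∧ j.val ≤ x + t then x + y - j.val else j.val := by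
    intro j
    simp only [ι]
    split_ifs <;> rfl
  refine card_hom_move S _ _ ⟨x + t, hμ⟩ (fun j => j.val < x + t) (fun j => j.val < c)
    (fun j => j.val < c) id ι (by simp) ?_ ?_ ?_ ?_ ?_ ?_ ?_ ?_ ?_
  · intro a b h ha
    rw [spider_adj] at h
    simp only [Fin.ext_iff]
    omega
  · intro a ha; omega
  · apply Fin.ext
    rw [hι]
    simp only [id]
    split_ifs <;> omega
  · intro a b _ _ h; exact h
  · intro a b ha hb h
    simp only [id, spider_adj] at h ⊢
    omega
  · intro a ha; exact ha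
  · intro a b ha hb h
    simp only [Fin.ext_iff, hι] at ha hb h ⊢
    split_ifs at h <;> omega
  · intro a b ha hb h
    simp only [Fin.ext_iff, hι, spider_adj] at ha hb h ⊢
    split_ifs <;> omega
  · intro a ha
    simp only [hι]
    split_ifs <;> omega

lemma spider_swap (n c : ℕ) (hc : 1 ≤ c) (hn : c + 1 < n) :
    Nat.card (S →g spider n 1 (c + 1)) ≤ Nat.card (S →g spider n c (c + 1)) := by
  let f : Fin n → Fin n := fun j =>
    if j.val = 0 then ⟨c, by omega⟩ else if h : j.val ≤ c then ⟨j.val - 1, by omega⟩ else j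
  have hf : ∀ j : Fin n, (f j).val =
      if j.val = 0 then c else if j.val ≤ c then j.val - 1 else j.val := by
    intro j
    simp only [f]
    split_ifs <;> rfl
  refine card_hom_mono S _ _ f ?_ ?_
  · intro a b h
    simp only [Fin.ext_iff, hf] at h ⊢
    split_ifs at h <;> omega
  · intro a b h
    simp only [spider_adj, hf] at h ⊢
    split_ifs <;> omega

/-- A spider with given leg lengths sits in `T` as a subgraph. -/
def Emb {W : Type} (T : SimpleGraph W) (len : Fin 3 → ℕ) : Prop :=
  ∃ F : Fin 3 → ℕ → W, (∀ k l, F k 0 = F l 0) ∧ (∀ k i, i < len k → T.Adj (F k i) (F k (i + 1))) ∧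
    (∀ k l i j, i ≤ len k → j ≤ len l → F k i = F l j → (i = 0 ∧ j = 0) ∨ (k = l ∧ i = j))

lemma Emb.perm {W : Type} {T : SimpleGraph W} {len : Fin 3 → ℕ} (h : Emb T len)
    (σ : Equiv.Perm (Fin 3)) : Emb T (len ∘ σ) := by
  obtain ⟨F, h0, h1, h2⟩ := h
  refine ⟨F ∘ σ, fun k l => h0 _ _, fun k i hi => h1 _ _ hi, fun k l i j hi hj h => ?_⟩
  rcases h2 _ _ i j hi hj h with h | h
  · exact Or.inl h
  · exact Or.inr ⟨σ.injective h.1, h.2⟩

lemma spider_le_of_emb {W : Type} [Finite W] {T : SimpleGraph W} {len : Fin 3 → ℕ}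
    (h : Emb T len) (n : ℕ) (hn : n = len 0 + len 1 + len 2 + 1) :
    Nat.card (S →g spider n (len 2) (len 2 + len 0)) ≤ Nat.card (S →g T) := by
  obtain ⟨F, h0, h1, h2⟩ := h
  let f : Fin n → W := fun j =>
    if j.val < len 2 then F 2 (len 2 - j.val)
    else if j.val ≤ len 2 + len 0 then F 0 (len 2 + len 0 - j.val) else F 1 (j.val - len 2 - len 0)
  refine card_hom_mono S _ _ f ?_ ?_
  · intro a b h
    have ha := a.2
    have hb := b.2
    simp only [f] at h
    apply Fin.ext
    split_ifs at h <;>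
    · have := h2 _ _ _ _ (by omega) (by omega) h
      simp only [Fin.reduceEq, false_and, true_and, or_false] at this
      omega
  · have key : ∀ a b : Fin n, ((a.val + 1 = b.val ∧ b.val ≠ len 2) ∨
        (a.val + 1 = len 2 ∧ b.val = len 2 + len 0)) → T.Adj (f a) (f b) := by
      intro a b h
      have ha := a.2
      have hb := b.2
      simp only [f]
      rcases h with h | h
      · by_cases c1 : b.val < len 2
        · rw [if_pos (by omega), if_pos c1]
          have := h1 2 (len 2 - b.val) (by omega)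
          rw [show len 2 - a.val = len 2 - b.val + 1 by omega]
          exact this.symm
        · by_cases c2 : b.val ≤ len 2 + len 0
          · rw [if_neg (by omega), if_pos (by omega), if_neg c1, if_pos c2]
            have := h1 0 (len 2 + len 0 - b.val) (by omega)
            rw [show len 2 + len 0 - a.val = len 2 + len 0 - b.val + 1 by omega]
            exact this.symm
          · rw [if_neg (by omega), if_neg c1, if_neg c2]
            have := h1 1 (a.val - len 2 - len 0) (by omega)
            rw [show b.val - len 2 - len 0 = a.val - len 2 - len 0 + 1 by omega]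
            by_cases c3 : a.val ≤ len 2 + len 0
            · rw [if_pos c3, show len 2 + len 0 - a.val = 0 by omega, h0 0 1]
              rwa [show a.val - len 2 - len 0 = 0 by omega] at this ⊢
            · rw [if_neg c3]; exact this
      · rw [if_pos (by omega), if_neg (by omega), if_pos (by omega)]
        have := h1 2 0 (by omega)
        rw [show len 2 - a.val = 0 + 1 by omega, show len 2 + len 0 - b.val = 0 by omega, h0 0 2]
        exact this.symm
    intro a b h
    rw [spider_adj] at h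
    rcases h.2 with h | h | h | h
    · exact key a b (Or.inl h)
    · exact (key b a (Or.inl h)).symm
    · exact key a b (Or.inr h)
    · exact (key b a (Or.inr h)).symm

/-- From a spanning spider to the path, given the fork inequality. -/
lemma path_le_of_emb {W : Type} [Finite W] {T : SimpleGraph W} {len : Fin 3 → ℕ}
    (h : Emb T len) (n : ℕ) (hn : n = len 0 + len 1 + len 2 + 1)
    (hY : Even n → Nat.card (S →g SimpleGraph.pathGraph n) ≤ Nat.card (S →g spider n 1 2)) :
    Nat.card (S →g SimpleGraph.pathGraph n) ≤ Nat.card (S →g T) := by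
  have heven : ∀ len' : Fin 3 → ℕ, Emb T len' → n = len' 0 + len' 1 + len' 2 + 1 →
      Even (len' 0) → Nat.card (S →g SimpleGraph.pathGraph n) ≤ Nat.card (S →g T) := by
    rintro len' h' hn' ⟨t, ht⟩
    exact (path_le_spider S n (len' 2)).trans
      ((spider_move S n (len' 2) (len' 2) (len' 2 + len' 0) t le_rfl (by omega) (by omega)).trans
        (spider_le_of_emb S h' n hn'))
  rcases Nat.even_or_odd (len 0) with h0 | ⟨a, ha⟩
  · exact heven len h hn h0
  rcases Nat.even_or_odd (len 1) with h1 | ⟨b, hb⟩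
  · refine heven _ (h.perm (Equiv.swap 0 1)) ?_ (by simpa using h1)
    simp [Equiv.swap_apply_def]; omega
  rcases Nat.even_or_odd (len 2) with h2 | ⟨c, hc⟩
  · refine heven _ (h.perm (Equiv.swap 0 2)) ?_ (by simpa using h2)
    simp [Equiv.swap_apply_def]; omega
  refine (hY ⟨a + b + c + 2, by omega⟩).trans ?_
  refine (spider_move S n 1 2 (len 2 + 1) c (by omega) (by omega) (by omega)).trans ?_
  refine (spider_swap S n (len 2) (by omega) (by omega)).trans ?_
  refine (spider_move S n (len 2) (len 2 + 1) (len 2 + len 0) a (by omega) (by omega)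
    (by omega)).trans ?_
  exact spider_le_of_emb S h n hn

end Pool.Agent.Work.MP_9e5f8f_co
end

-- merged part: Pool.Agent.Work.MP_9e5f8f_co.Ineq
section
/-! Polynomial inequalities used for the fork. -/

set_option autoImplicit false

namespace Pool.Agent.Work.MP_9e5f8f_co

lemma normN1 {x s w : ℝ} (hx : 0 < x) (hx1 : x ≤ 1) (hw : 1 ≤ w) (hs : x ≤ s * w) :
    1 + x ≤ 2 * s + w := by
  have h : (1 + x) * w ≤ (2 * s + w) * w := by
    linarith only [hx, hs, hw, hx1, mul_nonneg (sub_nonneg.mpr hw) (sub_nonneg.mpr (hx1.trans hw))]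
  exact le_of_mul_le_mul_right h (by linarith)

lemma linZ {x z P Q : ℝ} (hx : 0 < x) (hz : 0 ≤ z) (hxz : x * z ≤ 1) (hP : 0 ≤ P)
    (hPQ : 0 ≤ x * P + Q) : 0 ≤ P + z * Q := by
  by_cases hQ : 0 ≤ Q
  · positivity
  · have h : 0 ≤ x * (P + z * Q) := by linarith only [hPQ, hxz, hQ, mul_nonneg_of_nonpos_of_nonpos (Mathlib.Tactic.Linarith.sub_nonpos_of_le hxz) (le_of_lt (Mathlib.Tactic.Linarith.sub_neg_of_lt (lt_of_not_ge hQ)))]
    exact (mul_nonneg_iff_of_pos_left hx).mp h

lemma normN2 {x s w z : ℝ} (hx : 0 < x) (hx1 : x ≤ 1) (hw : 1 ≤ w) (hs : x ≤ s * w)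
    (hz : 0 ≤ z) (hxz : x * z ≤ 1) : w * (1 + x) * (1 + z) ≤ (2 * s + w) * (w + z) := by
  have h1 := normN1 hx hx1 hw hs
  have hw0 : 0 < w := by linarith
  have h2 : w * (1 + x) ^ 2 ≤ (2 * s + w) * (x * w + 1) := by
    have h3 : 0 ≤ w ^ 3 - 2 * w ^ 2 + 2 + x * (2 * w - w ^ 2) := by
      have a0 : 0 ≤ w ^ 3 - 2 * w ^ 2 + 2 := by linarith only [hw0, mul_nonneg hw0.le (sq_nonneg (w - 4 / 3)), sq_nonneg ((3 : ℝ) * w - (1 : ℝ) * (4 : ℝ)), sq_nonneg (w - (4 / 3 : ℝ))]
      have a1 : 0 ≤ w ^ 3 - 3 * w ^ 2 + 2 * w + 2 := by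
        (refine le_of_not_gt fun h_nl => ?_; linarith only [h_nl, hw0, mul_nonneg hw0.le (sq_nonneg (w - 3 / 2)), sq_nonneg (w - 3 / 2), sq_nonneg w, sq_nonneg (w - (3 / 2 : ℝ)), mul_nonneg_of_nonpos_of_nonpos (Mathlib.Tactic.Linarith.sub_nonpos_of_le (sq_nonneg w)) (le_of_lt (Mathlib.Tactic.Linarith.sub_neg_of_lt h_nl)), mul_nonneg_of_nonpos_of_nonpos (Mathlib.Tactic.Linarith.sub_nonpos_of_le (sq_nonneg w)) (Mathlib.Tactic.Linarith.sub_nonpos_of_le (mul_nonneg (LT.lt.le hw0) (sq_nonneg (w - (3 / 2 : ℝ)))))])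
      linarith only [hx, a1, hx1, a0, mul_nonneg hx.le a1, mul_nonneg (sub_nonneg.mpr hx1) a0]
    have h4 : w ^ 2 * (1 + x) ^ 2 ≤ (w ^ 2 + 2 * x) * (x * w + 1) := by
      linarith only [hx, h3, mul_nonneg hx.le h3]
    have h5 : (w ^ 2 + 2 * x) * (x * w + 1) ≤ ((2 * s + w) * w) * (x * w + 1) := by
      apply mul_le_mul_of_nonneg_right
      · linarith only [hs]
      · positivity
    have h6 : (w * (1 + x) ^ 2) * w ≤ ((2 * s + w) * (x * w + 1)) * w := by linarith only [h4, h5]
    exact le_of_mul_le_mul_right h6 hw0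
  have := linZ (P := (2 * s + w) * w - w * (1 + x)) (Q := (2 * s + w) - w * (1 + x)) hx hz hxz
    (by linarith only [hx, hs, hx1, hw, mul_nonneg_of_nonpos_of_nonpos (Mathlib.Tactic.Linarith.sub_nonpos_of_le hx1) (Mathlib.Tactic.Linarith.sub_nonpos_of_le hw), mul_nonneg_of_nonpos_of_nonpos (Mathlib.Tactic.Linarith.sub_nonpos_of_le hw) (Mathlib.Tactic.Linarith.sub_nonpos_of_le hw)]) (by linarith only [h2])
  linarith only [this]

lemma normH {x w : ℝ} (hx : 0 < x) (hx1 : x ≤ 1) (hw : 1 ≤ w) :
    w ^ 2 * (w + x) * (1 + x) ^ 3 ≤ (2 * x + w ^ 2) ^ 2 * (x * w + 1) := by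
  have hw0 : 0 < w := by linarith
  have c0 : 0 ≤ w ^ 4 - w ^ 3 := by linarith only [hw, hw0, pow_pos hw0 3, mul_nonneg_of_nonpos_of_nonpos (Mathlib.Tactic.Linarith.sub_nonpos_of_le hw) (le_of_lt (Mathlib.Tactic.Linarith.sub_neg_of_lt (pow_pos hw0 (3 : ℕ))))]
  have c1 : 0 ≤ w ^ 5 - 3 * w ^ 3 + 3 * w ^ 2 := by
    have : 0 ≤ w ^ 3 - 3 * w + 3 := by linarith only [hw0, mul_nonneg hw0.le (sq_nonneg (w - 1)), sq_nonneg (w - 1), sq_nonneg (w - (1 : ℝ))]
    linarith only [this, mul_nonneg (sq_nonneg w) this, sq_nonneg w]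
  have c3 : 0 ≤ w ^ 3 + 3 * w ^ 2 - 4 * w := by linarith only [hw0, hw, mul_nonneg hw0.le (sub_nonneg.mpr hw), mul_nonneg_of_nonpos_of_nonpos (Mathlib.Tactic.Linarith.sub_nonpos_of_le (sq_nonneg w)) (Mathlib.Tactic.Linarith.sub_nonpos_of_le hw)]
  have c4 : 0 ≤ w ^ 2 := by positivity
  have c5 : 0 ≤ (w + 1) * (w ^ 2 - 2) ^ 2 := by positivity
  have d0 : 0 ≤ 1 - x ^ 2 := by linarith only [hx1, hx, mul_nonneg_of_nonpos_of_nonpos (le_of_lt (Mathlib.Tactic.Linarith.sub_neg_of_lt hx)) (Mathlib.Tactic.Linarith.sub_nonpos_of_le hx1)]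
  have d1 : 0 ≤ x - x ^ 2 := by linarith only [hx, hx1, mul_nonneg_of_nonpos_of_nonpos (le_of_lt (Mathlib.Tactic.Linarith.sub_neg_of_lt hx)) (Mathlib.Tactic.Linarith.sub_nonpos_of_le hx1)]
  have d3 : 0 ≤ x ^ 2 - x ^ 3 := by linarith only [hx1, mul_nonneg (sq_nonneg x) (sub_nonneg.mpr hx1), sq_nonneg x]
  have d4 : 0 ≤ x ^ 2 - x ^ 4 := by linarith only [d0, mul_nonneg (sq_nonneg x) d0, sq_nonneg x]
  have key : (2 * x + w ^ 2) ^ 2 * (x * w + 1) - w ^ 2 * (w + x) * (1 + x) ^ 3 =
      (w ^ 4 - w ^ 3) * (1 - x ^ 2) + (w ^ 5 - 3 * w ^ 3 + 3 * w ^ 2) * (x - x ^ 2) +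
      (w ^ 3 + 3 * w ^ 2 - 4 * w) * (x ^ 2 - x ^ 3) + w ^ 2 * (x ^ 2 - x ^ 4) +
      ((w + 1) * (w ^ 2 - 2) ^ 2) * x ^ 2 := by ring
  have : 0 ≤ (2 * x + w ^ 2) ^ 2 * (x * w + 1) - w ^ 2 * (w + x) * (1 + x) ^ 3 := by
    rw [key]; positivity
  linarith only [this]

lemma normH1 {x s w e : ℝ} (hx : 0 < x) (hx1 : x ≤ 1) (hw : 1 ≤ w) (hs : x ≤ s * w)
    (he : e ≤ s) : w * (1 + e) * (1 + x) ^ 3 ≤ (2 * s + w) ^ 2 * (x * w + 1) := by
  have hw0 : 0 < w := by linarith only [hw]
  obtain ⟨t, ht⟩ : ∃ t, t * w = x := ⟨x / w, by field_simp⟩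
  have ht0 : 0 < t := by
    by_contra h
    linarith only [hx, ht, h, hw0, mul_nonneg (neg_nonneg.mpr (not_lt.mp h)) hw0.le]
  have hts : t ≤ s := le_of_mul_le_mul_right (by linarith only [hs, ht]) hw0
  have h0 : w * (1 + t) * (1 + x) ^ 3 ≤ (2 * t + w) ^ 2 * (x * w + 1) := by
    have h := normH hx hx1 hw
    have e1 : (2 * x + w ^ 2) ^ 2 * (x * w + 1) = ((2 * t + w) ^ 2 * (x * w + 1)) * w ^ 2 := by
      rw [show 2 * x + w ^ 2 = (2 * t + w) * w by rw [← ht]; ring]; ring
    have e2 : w ^ 2 * (w + x) * (1 + x) ^ 3 = (w * (1 + t) * (1 + x) ^ 3) * w ^ 2 := by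
      rw [show w + x = w * (1 + t) by rw [← ht]; ring]; ring
    rw [e1, e2] at h
    exact le_of_mul_le_mul_right h (by positivity)
  have hb : (1 + x) ^ 3 ≤ 4 * (x * w + 1) := by
    have : (1 + x) ^ 2 ≤ 4 := by linarith only [hx1, hx, mul_nonneg_of_nonpos_of_nonpos (le_of_lt (Mathlib.Tactic.Linarith.sub_neg_of_lt hx)) (Mathlib.Tactic.Linarith.sub_nonpos_of_le hx1)]
    linarith only [this, hx, hw, hx1, mul_nonneg hx.le (sub_nonneg.mpr hw), mul_nonneg_of_nonpos_of_nonpos (Mathlib.Tactic.Linarith.sub_nonpos_of_le (sq_nonneg ((1 : ℝ) + x))) (Mathlib.Tactic.Linarith.sub_nonpos_of_le hx1), mul_nonneg_of_nonpos_of_nonpos (le_of_lt (Mathlib.Tactic.Linarith.sub_neg_of_lt hx)) (Mathlib.Tactic.Linarith.sub_nonpos_of_le hx1)]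
  have h1 : 0 ≤ 4 * (x * w + 1) * (s + t) + w * (4 * (x * w + 1) - (1 + x) ^ 3) := by
    have : 0 ≤ s + t := by linarith only [ht0, hts]
    have : 0 ≤ 4 * (x * w + 1) - (1 + x) ^ 3 := by linarith
    positivity
  have h2 := mul_nonneg (sub_nonneg.mpr hts) h1
  have h3 : 0 ≤ w * (s - e) * (1 + x) ^ 3 := by
    have : 0 ≤ s - e := by linarith
    positivity
  linarith only [h0, h2, h3]

lemma normN3 {x s w z e : ℝ} (hx : 0 < x) (hx1 : x ≤ 1) (hw : 1 ≤ w) (hs : x ≤ s * w)
    (hz : 0 ≤ z) (hxz : x * z ≤ 1) (he0 : 0 ≤ e) (he : e ≤ s) :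
    w * (1 + e) * (1 + x) ^ 2 * (1 + z) ≤ (2 * s + w) ^ 2 * (w + z) := by
  have hw0 : 0 < w := by linarith
  have h1 := normH1 hx hx1 hw hs he
  have h0 : (1 + e) * (1 + x) ^ 2 ≤ (2 * s + w) ^ 2 := by
    have a1 : (1 + e) * (1 + x) ^ 2 * (x * w + 1) ≤ w * (1 + e) * (1 + x) ^ 3 := by
      have : 0 ≤ (1 + e) * (1 + x) ^ 2 * (w - 1) := by
        have : 0 ≤ w - 1 := by linarith
        positivity
      linarith only [this]
    exact le_of_mul_le_mul_right (a1.trans h1) (by positivity)
  have := linZ (P := w * ((2 * s + w) ^ 2 - (1 + e) * (1 + x) ^ 2))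
    (Q := (2 * s + w) ^ 2 - w * ((1 + e) * (1 + x) ^ 2)) hx hz hxz
    (mul_nonneg hw0.le (by linarith)) (by linarith only [h1])
  linarith only [this]

/-- The three inequalities needed at the fork. -/
lemma fork_step {E A B C D y1 y2 y3 y4 : ℝ} (hE : 0 ≤ E) (hA : 0 < A) (hB : 0 < B) (hC : 0 < C)
    (hD : 0 ≤ D) (hy1 : 0 < y1) (hy2 : 0 < y2) (hy3 : 0 < y3)
    (hX : B * C ≤ y2 * y3) (hT : C * D ≤ y3 * y4) (hJ : A * B ^ 2 * C ≤ y1 * y2 ^ 2 * y3)
    (hK : E * C ≤ y1 * y2) (hAD : A * D ≤ B * C) (hAC : A ≤ C) :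
    A * (B + D) ≤ y2 * (y1 + y1 + y3) ∧
    (A + C) * (B + D) ≤ (y1 + y1 + y3) * (y2 + y4) ∧
    (E + B) * (A + C) ^ 2 * (B + D) ≤ y2 * (y1 + y1 + y3) ^ 2 * (y2 + y4) := by
  have hBC : 0 < B * C := by positivity
  obtain ⟨x, rfl⟩ : ∃ x, A = x * C := ⟨A / C, by field_simp⟩
  obtain ⟨e, rfl⟩ : ∃ e, E = e * B := ⟨E / B, by field_simp⟩
  obtain ⟨z, rfl⟩ : ∃ z, D = z * B := ⟨D / B, by field_simp⟩
  obtain ⟨w, hw⟩ : ∃ w, y2 * y3 = w * (B * C) := ⟨y2 * y3 / (B * C), by field_simp⟩
  obtain ⟨s, hs⟩ : ∃ s, y1 * y2 = s * (B * C) := ⟨y1 * y2 / (B * C), by field_simp⟩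
  have hx : 0 < x := (mul_pos_iff_of_pos_right hC).mp hA
  have hx1 : x ≤ 1 := le_of_mul_le_mul_right (by linarith) hC
  have he : 0 ≤ e := nonneg_of_mul_nonneg_left hE hB
  have hz : 0 ≤ z := nonneg_of_mul_nonneg_left hD hB
  have hw1 : 1 ≤ w := le_of_mul_le_mul_right (by linarith) hBC
  have hes : e ≤ s := le_of_mul_le_mul_right (by linarith) hBC
  have hxz : x * z ≤ 1 := le_of_mul_le_mul_right (by linarith) hBC
  have hsw : x ≤ s * w := by
    refine le_of_mul_le_mul_right (a := (B * C) ^ 2) ?_ (by positivity)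
    have : y1 * y2 ^ 2 * y3 = (y1 * y2) * (y2 * y3) := by ring
    rw [this, hs, hw] at hJ
    linarith only [hJ]
  have hs0 : 0 < 2 * s + w := by have := normN1 hx hx1 hw1 hsw; linarith only [hx, this]
  have hL : y2 * (y1 + y1 + y3) = (2 * s + w) * (B * C) := by linarith only [hw, hs]
  have hR : (w + z) * (B * C) ≤ y3 * (y2 + y4) := by linarith
  have hX0 : 0 < y2 * y3 := by positivity
  refine ⟨?_, ?_, ?_⟩
  · rw [hL]
    have := mul_le_mul_of_nonneg_right (normN1 hx hx1 hw1 hsw) hBC.le
    have := mul_le_mul_of_nonneg_right hxz hBC.le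
    linarith
  · refine le_of_mul_le_mul_right (a := y2 * y3) ?_ hX0
    have h1 := mul_le_mul_of_nonneg_right (normN2 hx hx1 hw1 hsw hz hxz) (sq_nonneg (B * C))
    have h2 := mul_le_mul_of_nonneg_left hR (mul_pos hs0 hBC).le
    calc (x * C + C) * (B + z * B) * (y2 * y3) = w * (1 + x) * (1 + z) * (B * C) ^ 2 := by
          rw [hw]; ring
      _ ≤ (2 * s + w) * (B * C) * ((w + z) * (B * C)) := by linarith only [h1]
      _ ≤ (2 * s + w) * (B * C) * (y3 * (y2 + y4)) := h2
      _ = (y1 + y1 + y3) * (y2 + y4) * (y2 * y3) := by rw [← hL]; ring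
  · refine le_of_mul_le_mul_right (a := y2 * y3) ?_ hX0
    have h1 := mul_le_mul_of_nonneg_right (normN3 hx hx1 hw1 hsw hz hxz he hes)
      (pow_pos hBC 3).le
    have h2 := mul_le_mul_of_nonneg_left hR (sq_nonneg ((2 * s + w) * (B * C)))
    calc (e * B + B) * (x * C + C) ^ 2 * (B + z * B) * (y2 * y3)
          = w * (1 + e) * (1 + x) ^ 2 * (1 + z) * (B * C) ^ 3 := by rw [hw]; ring
      _ ≤ ((2 * s + w) * (B * C)) ^ 2 * ((w + z) * (B * C)) := by linarith only [h1]
      _ ≤ ((2 * s + w) * (B * C)) ^ 2 * (y3 * (y2 + y4)) := h2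
      _ = y2 * (y1 + y1 + y3) ^ 2 * (y2 + y4) * (y2 * y3) := by rw [← hL]; ring

/-- The inequality away from the fork. -/
lemma bulk_step {p0 p1 p2 p3 y0 y1 y2 y3 : ℝ} (hp0 : 0 ≤ p0) (hp1 : 0 < p1) (hp2 : 0 < p2)
    (hp3 : 0 ≤ p3) (ha : p0 * p1 ≤ y0 * y1) (hb : p1 * p2 ≤ y1 * y2) (hc : p2 * p3 ≤ y2 * y3)
    (hl : p0 * p3 ≤ p1 * p2) :
    (p0 + p2) * (p1 + p3) ≤ (y0 + y2) * (y1 + y3) := by
  have hb0 : 0 < y1 * y2 := lt_of_lt_of_le (by positivity) hb
  have hac : (p0 * p1) * (p2 * p3) ≤ (y0 * y1) * (y2 * y3) :=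
    mul_le_mul ha hc (by positivity) (le_trans (by positivity) ha)
  have h1 : (p1 * p2 + p0 * p3) * (y1 * y2) ≤ (y1 * y2 + y0 * y3) * (y1 * y2) := by
    linarith only [hac, hb, hl, mul_nonneg (sub_nonneg.mpr hb) (sub_nonneg.mpr (hl.trans hb))]
  have h2 := le_of_mul_le_mul_right h1 hb0
  linarith only [ha, hc, h2]

lemma normF {a b w s e : ℝ} (ha : 0 < a) (hab : a ≤ b) (hb : b ≤ 1) (hw : 1 ≤ w)
    (hs : a * b ≤ s * w) (hes : e ≤ s) (hea : e ≤ a) :
    2 * (b * w) * (1 + a) ^ 2 ≤ (s + b * w) * (3 * (b * w) + (2 - 2 * b + 2 * a - e)) := by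
  have hw0 : 0 < w := by linarith
  have hb0 : 0 < b := by linarith
  have ha1 : a ≤ 1 := by linarith
  obtain ⟨t, ht⟩ : ∃ t, t * w = a * b := ⟨a * b / w, by field_simp⟩
  have ht0 : 0 < t := by
    by_contra h
    linarith only [ht, h, hw0, ha, hb0, mul_nonneg (neg_nonneg.mpr (not_lt.mp h)) hw0.le, mul_pos ha hb0]
  have hts : t ≤ s := le_of_mul_le_mul_right (by linarith) hw0
  have hta : t ≤ a := le_of_mul_le_mul_right (by linarith only [ht, ha, hb, hw, mul_nonneg_of_nonpos_of_nonpos (le_of_lt (Mathlib.Tactic.Linarith.sub_neg_of_lt ha)) (Mathlib.Tactic.Linarith.sub_nonpos_of_le hb), mul_nonneg_of_nonpos_of_nonpos (le_of_lt (Mathlib.Tactic.Linarith.sub_neg_of_lt ha)) (Mathlib.Tactic.Linarith.sub_nonpos_of_le hw)]) hw0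
  have hbw : b ≤ b * w := by linarith only [ha, hw, hab, mul_nonneg_of_nonpos_of_nonpos (le_of_lt (Mathlib.Tactic.Linarith.sub_neg_of_lt ha)) (Mathlib.Tactic.Linarith.sub_nonpos_of_le hw), mul_nonneg_of_nonpos_of_nonpos (Mathlib.Tactic.Linarith.sub_nonpos_of_le hab) (Mathlib.Tactic.Linarith.sub_nonpos_of_le hw)]
  have h0 : 2 * w ^ 3 * (1 + a) ^ 2 ≤
      (a + w ^ 2) * (3 * b * w ^ 2 + (2 - 2 * b + 2 * a) * w - a * b) := by
    have c1 : 0 ≤ 3 * w ^ 2 - 2 * w - a := by linarith only [hab, hb, hw, mul_nonneg_of_nonpos_of_nonpos (Mathlib.Tactic.Linarith.sub_nonpos_of_le hw) (Mathlib.Tactic.Linarith.sub_nonpos_of_le hw)]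
    have c2 : 0 ≤ (a + w ^ 2) * ((b - a) * (3 * w ^ 2 - 2 * w - a)) := by
      have : 0 ≤ b - a := by linarith
      positivity
    have c3 : 0 ≤ a * ((w - 1) ^ 2 * (3 * w ^ 2 - 1)) := by
      have : 0 ≤ 3 * w ^ 2 - 1 := by linarith only [ha, hw, c1]
      positivity
    have c4 : 0 ≤ a * ((1 - a) * (2 * w ^ 2 * (w - 1))) := by
      have : 0 ≤ 1 - a := by linarith
      have : 0 ≤ w - 1 := by linarith
      positivity
    have c5 : 0 ≤ a * ((1 - a) * (1 + a)) := by
      have : 0 ≤ 1 - a := by linarith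
      positivity
    linarith only [c2, c3, c4, c5]
  have h1 : 2 * (b * w) * (1 + a) ^ 2 ≤ (t + b * w) * (3 * (b * w) + (2 - 2 * b + 2 * a - t)) := by
    refine le_of_mul_le_mul_right (a := w ^ 2) ?_ (by positivity)
    have e1 : (t + b * w) * (3 * (b * w) + (2 - 2 * b + 2 * a - t)) * w ^ 2 =
        ((t + b * w) * w) * ((3 * (b * w) + (2 - 2 * b + 2 * a - t)) * w) := by ring
    have e2 : (t + b * w) * w = b * (a + w ^ 2) := by linarith only [ht]
    have e3 : (3 * (b * w) + (2 - 2 * b + 2 * a - t)) * w =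
        3 * b * w ^ 2 + (2 - 2 * b + 2 * a) * w - a * b := by linarith only [ht]
    rw [e1, e2, e3]
    have := mul_le_mul_of_nonneg_left h0 hb0.le
    linarith only [this]
  obtain ⟨r, hr1, hr2, hr3, hr4⟩ : ∃ r, r ≤ s ∧ r ≤ a ∧ t ≤ r ∧ e ≤ r :=
    ⟨min s a, min_le_left _ _, min_le_right _ _, le_min hts hta, le_min hes hea⟩
  have h2 : (t + b * w) * (3 * (b * w) + (2 - 2 * b + 2 * a - t)) ≤
      (r + b * w) * (3 * (b * w) + (2 - 2 * b + 2 * a - r)) := by
    have : 0 ≤ 2 * (b * w) + 2 - 2 * b + 2 * a - r - t := by linarith only [hta, hbw, hr2]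
    linarith only [hr3, this, mul_nonneg (sub_nonneg.mpr hr3) this]
  have h3 : (r + b * w) * (3 * (b * w) + (2 - 2 * b + 2 * a - r)) ≤
      (s + b * w) * (3 * (b * w) + (2 - 2 * b + 2 * a - e)) := by
    apply mul_le_mul <;> linarith only [hr1, hr4, ha, hab, hbw, hr2, ht0, hts]
  linarith only [h1, h2, h3]

/-- The final inequality at the fork. -/
lemma fork_final {E A B C c r y1 y2 y3 : ℝ} (hA : 0 < A) (hEA : E ≤ A) (hAB : A ≤ B)
    (hBC : B ≤ C) (hy1 : 0 < y1) (hy2 : 0 < y2) (hy3 : 0 < y3)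
    (hX : B * C ≤ y2 * y3) (hJ : A * B ^ 2 * C ≤ y1 * y2 ^ 2 * y3)
    (hK : E * C ≤ y1 * y2) (hc : c = 2 * C - 2 * B + 2 * A - E) (hr : C ≤ r * y3) :
    4 * (A + C) ≤ 2 * y1 + 3 * y2 + 2 * y3 + c * r := by
  have hB : 0 < B := by linarith
  have hC : 0 < C := by linarith
  have hc0 : 0 ≤ c := by linarith
  have hr0 : 0 ≤ r := nonneg_of_mul_nonneg_left (hC.le.trans hr) hy3
  obtain ⟨a, rfl⟩ : ∃ a, A = a * C := ⟨A / C, by field_simp⟩
  obtain ⟨b, rfl⟩ : ∃ b, B = b * C := ⟨B / C, by field_simp⟩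
  obtain ⟨e, rfl⟩ : ∃ e, E = e * C := ⟨E / C, by field_simp⟩
  have hC2 : 0 < C ^ 2 := by positivity
  have ha : 0 < a := (mul_pos_iff_of_pos_right hC).mp hA
  have hb : 0 < b := (mul_pos_iff_of_pos_right hC).mp hB
  obtain ⟨w, hw⟩ : ∃ w, y2 * y3 = b * w * C ^ 2 := ⟨y2 * y3 / (b * C ^ 2), by field_simp⟩
  obtain ⟨s, hs⟩ : ∃ s, y1 * y2 = s * C ^ 2 := ⟨y1 * y2 / C ^ 2, by field_simp⟩
  have hab : a ≤ b := le_of_mul_le_mul_right hAB hC
  have hb1 : b ≤ 1 := le_of_mul_le_mul_right (by linarith) hC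
  have hea : e ≤ a := le_of_mul_le_mul_right hEA hC
  have hw1 : 1 ≤ w := le_of_mul_le_mul_right (a := b * C ^ 2) (by linarith) (by positivity)
  have hes : e ≤ s := le_of_mul_le_mul_right (a := C ^ 2) (by linarith) hC2
  have hsw : a * b ≤ s * w := by
    refine le_of_mul_le_mul_right (a := b * C ^ 4) ?_ (by positivity)
    have : y1 * y2 ^ 2 * y3 = (y1 * y2) * (y2 * y3) := by ring
    rw [this, hs, hw] at hJ
    linarith
  have hF := normF ha hab hb1 hw1 hsw hes hea
  have hX0 : 0 < y2 * y3 := by positivity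
  have hU : (2 * y1 + 2 * y3) * y2 = 2 * (s + b * w) * C ^ 2 := by linarith only [hw, hs]
  have hV : (3 * (b * w) + (2 - 2 * b + 2 * a - e)) * C ^ 2 ≤ (3 * y2 + c * r) * y3 := by
    have := mul_le_mul_of_nonneg_left hr hc0
    have h2 : c * C = (2 - 2 * b + 2 * a - e) * C ^ 2 := by rw [hc]; ring
    linarith only [hw, this, h2]
  have hUV : 4 * (a * C + C) ^ 2 ≤ (2 * y1 + 2 * y3) * (3 * y2 + c * r) := by
    refine le_of_mul_le_mul_right (a := y2 * y3) ?_ hX0
    have h1 := mul_le_mul_of_nonneg_right hF (show 0 ≤ 2 * C ^ 4 by positivity)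
    have h2 := mul_le_mul_of_nonneg_left hV (show 0 ≤ (2 * y1 + 2 * y3) * y2 by positivity)
    calc 4 * (a * C + C) ^ 2 * (y2 * y3) = 2 * (b * w) * (1 + a) ^ 2 * (2 * C ^ 4) := by
          rw [hw]; ring
      _ ≤ (2 * (s + b * w) * C ^ 2) * ((3 * (b * w) + (2 - 2 * b + 2 * a - e)) * C ^ 2) := by
          linarith only [h1]
      _ ≤ ((2 * y1 + 2 * y3) * y2) * ((3 * y2 + c * r) * y3) := by rw [← hU]; exact h2
      _ = (2 * y1 + 2 * y3) * (3 * y2 + c * r) * (y2 * y3) := by ring
  have hpos : 0 ≤ (2 * y1 + 2 * y3) + (3 * y2 + c * r) := by positivity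
  have : (4 * (a * C + C)) ^ 2 ≤ ((2 * y1 + 2 * y3) + (3 * y2 + c * r)) ^ 2 := by
    linarith only [hUV, sq_nonneg ((2 * y1 + 2 * y3) - (3 * y2 + c * r)), sq_nonneg ((2 : ℝ) * y1 + (2 : ℝ) * y3 - ((3 : ℝ) * y2 + c * r))]
  have := le_of_sq_le_sq this hpos
  linarith only [this]

end Pool.Agent.Work.MP_9e5f8f_co
end

-- merged part: Pool.Agent.Work.MP_9e5f8f_co.Fork
section
/-! The path against the fork `Y_{1,1,n-3}` for even `n ≥ 6`. -/

set_option autoImplicit false

namespace Pool.Agent.Work.MP_9e5f8f_co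

open Finset

/-- Rooted counts in the path, as a sequence indexed by integers. -/
noncomputable def pv (n : ℕ) : RT → ℤ → ℝ
  | .one => fun j => if 0 ≤ j ∧ j < n then 1 else 0
  | .mul a b => fun j => pv n a j * pv n b j
  | .up a => fun j => if 0 ≤ j ∧ j < n then pv n a (j - 1) + pv n a (j + 1) else 0

/-- Rooted counts in the fork, as a sequence indexed by integers. -/
noncomputable def yv (n : ℕ) : RT → ℤ → ℝ
  | .one => fun j => if 0 ≤ j ∧ j < n then 1 else 0
  | .mul a b => fun j => yv n a j * yv n b j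
  | .up a => fun j => if j = 0 ∨ j = 1 then yv n a 2 else if j = 2 then yv n a 0 + yv n a 1 + yv n a 3
      else if 3 ≤ j ∧ j < n then yv n a (j - 1) + yv n a (j + 1) else 0

lemma pv_zero (n : ℕ) (t : RT) : ∀ j, ¬ (0 ≤ j ∧ j < (n : ℤ)) → pv n t j = 0 := by
  induction t with
  | one => intro j hj; simp only [pv, if_neg hj]
  | mul a b iha _ => intro j hj; simp only [pv, iha j hj, zero_mul]
  | up a _ => intro j hj; simp only [pv, if_neg hj]

lemma yv_zero (n : ℕ) (hn : 3 ≤ n) (t : RT) : ∀ j, ¬ (0 ≤ j ∧ j < (n : ℤ)) → yv n t j = 0 := by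
  induction t with
  | one => intro j hj; simp only [yv, if_neg hj]
  | mul a b iha _ => intro j hj; simp only [yv, iha j hj, zero_mul]
  | up a _ =>
    intro j hj
    simp only [yv]
    rw [if_neg (by omega), if_neg (by omega), if_neg (by omega)]

lemma pv_nonneg (n : ℕ) (t : RT) : ∀ j, 0 ≤ pv n t j := by
  induction t with
  | one => intro j; simp only [pv]; split_ifs <;> norm_num
  | mul a b iha ihb => intro j; exact mul_nonneg (iha j) (ihb j)
  | up a iha =>
    intro j; simp only [pv]; split_ifs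
    · exact add_nonneg (iha _) (iha _)
    · exact le_rfl

lemma yv_nonneg (n : ℕ) (t : RT) : ∀ j, 0 ≤ yv n t j := by
  induction t with
  | one => intro j; simp only [yv]; split_ifs <;> norm_num
  | mul a b iha ihb => intro j; exact mul_nonneg (iha j) (ihb j)
  | up a iha =>
    intro j; simp only [yv]; split_ifs
    · exact iha _
    · exact add_nonneg (add_nonneg (iha _) (iha _)) (iha _)
    · exact add_nonneg (iha _) (iha _)
    · exact le_rfl

lemma pv_pos (n : ℕ) (hn : 2 ≤ n) (t : RT) : ∀ j, 0 ≤ j → j < (n : ℤ) → 0 < pv n t j := by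
  induction t with
  | one => intro j h1 h2; simp only [pv]; rw [if_pos ⟨h1, h2⟩]; norm_num
  | mul a b iha ihb => intro j h1 h2; exact mul_pos (iha j h1 h2) (ihb j h1 h2)
  | up a iha =>
    intro j h1 h2; simp only [pv]; rw [if_pos ⟨h1, h2⟩]
    by_cases h : j = 0
    · exact add_pos_of_nonneg_of_pos (pv_nonneg _ _ _) (iha _ (by omega) (by omega))
    · exact add_pos_of_pos_of_nonneg (iha _ (by omega) (by omega)) (pv_nonneg _ _ _)

lemma yv_pos (n : ℕ) (hn : 3 ≤ n) (t : RT) : ∀ j, 0 ≤ j → j < (n : ℤ) → 0 < yv n t j := by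
  induction t with
  | one => intro j h1 h2; simp only [yv]; rw [if_pos ⟨h1, h2⟩]; norm_num
  | mul a b iha ihb => intro j h1 h2; exact mul_pos (iha j h1 h2) (ihb j h1 h2)
  | up a iha =>
    intro j h1 h2; simp only [yv]
    split_ifs with c1 c2 c3
    · exact iha _ (by omega) (by omega)
    · exact add_pos_of_pos_of_nonneg (add_pos_of_pos_of_nonneg (iha _ (by omega) (by omega))
        (yv_nonneg _ _ _)) (yv_nonneg _ _ _)
    · exact add_pos_of_pos_of_nonneg (iha _ (by omega) (by omega)) (yv_nonneg _ _ _)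
    · omega

lemma pv_symm (n : ℕ) (t : RT) : ∀ j k, j + k = (n : ℤ) - 1 → pv n t j = pv n t k := by
  induction t with
  | one =>
    intro j k h; simp only [pv]
    split_ifs <;> first | rfl | omega
  | mul a b iha ihb => intro j k h; simp only [pv, iha j k h, ihb j k h]
  | up a iha =>
    intro j k h; simp only [pv]
    split_ifs
    · rw [iha (j - 1) (k + 1) (by omega), iha (j + 1) (k - 1) (by omega), add_comm]
    · omega
    · omega
    · rfl

lemma yv_01 (n : ℕ) (hn : 3 ≤ n) (t : RT) : yv n t 0 = yv n t 1 := by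
  induction t with
  | one => simp only [yv]; rw [if_pos (by omega), if_pos (by omega)]
  | mul a b iha ihb => simp only [yv, iha, ihb]
  | up a _ => simp [yv]

lemma pv_lc (n : ℕ) (t : RT) : ∀ (a b : ℤ) (k : ℕ), b = a + 2 * k + 1 →
    pv n t a * pv n t b ≤ pv n t (a + 1) * pv n t (b - 1) := by
  induction t with
  | one =>
    intro a b k h; simp only [pv]
    split_ifs <;> first | omega | norm_num
  | mul s t ihs iht =>
    intro a b k h; simp only [pv]
    have := mul_le_mul (ihs a b k h) (iht a b k h)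
      (mul_nonneg (pv_nonneg _ _ _) (pv_nonneg _ _ _))
      (mul_nonneg (pv_nonneg _ _ _) (pv_nonneg _ _ _))
    linarith
  | up s ih =>
    intro a b k h
    rcases k with _ | k
    · rw [show b = a + 1 by omega, show a + 1 - 1 = a by ring, mul_comm]
    by_cases ha : 0 ≤ a ∧ a < (n : ℤ)
    swap
    · rw [pv_zero n _ a ha, zero_mul]; exact mul_nonneg (pv_nonneg _ _ _) (pv_nonneg _ _ _)
    by_cases hb : 0 ≤ b ∧ b < (n : ℤ)
    swap
    · rw [pv_zero n _ b hb, mul_zero]; exact mul_nonneg (pv_nonneg _ _ _) (pv_nonneg _ _ _)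
    simp only [pv]
    rw [if_pos ha, if_pos hb, if_pos (by omega), if_pos (by omega)]
    have h1 := ih (a - 1) (b - 1) (k + 1) (by push_cast at h ⊢; omega)
    have h2 := ih (a - 1) (b + 1) (k + 2) (by push_cast at h ⊢; omega)
    have h3 := ih (a + 1) (b - 1) k (by push_cast at h ⊢; omega)
    have h4 := ih (a + 1) (b + 1) (k + 1) (by push_cast at h ⊢; omega)
    simp only [sub_add_cancel, add_sub_cancel_right] at h1 h2 h3 h4 ⊢
    linarith only [h3, h1, h2, h4]

lemma pv_mono (n h : ℕ) (hn : n = 2 * h) (t : RT) (a : ℤ) (ha : 0 ≤ a) (ha' : 2 * a + 2 ≤ n) :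
    pv n t a ≤ pv n t (a + 1) := by
  have h1 := pv_lc n t a (n - 1 - a) (h - 1 - a).toNat (by omega)
  rw [← pv_symm n t a (n - 1 - a) (by ring), ← pv_symm n t (a + 1) (n - 1 - a - 1) (by ring)] at h1
  exact le_of_sq_le_sq (by rw [sq, sq]; exact h1) (pv_nonneg _ _ _)

lemma fork_inv (n h : ℕ) (hn : n = 2 * h) (h3 : 3 ≤ h) (t : RT) :
    (∀ j : ℤ, 2 ≤ j → pv n t j * pv n t (j + 1) ≤ yv n t j * yv n t (j + 1)) ∧
    pv n t 1 * pv n t 2 ^ 2 * pv n t 3 ≤ yv n t 1 * yv n t 2 ^ 2 * yv n t 3 ∧
    pv n t 0 * pv n t 3 ≤ yv n t 1 * yv n t 2 := by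
  induction t with
  | one =>
    refine ⟨fun j _ => le_rfl, le_rfl, ?_⟩
    simp only [pv, yv]
    rw [if_pos (by omega), if_pos (by omega), if_pos (by omega), if_pos (by omega)]
  | mul s t ihs iht =>
    have p := pv_nonneg n
    have y := yv_nonneg n
    refine ⟨fun j hj => ?_, ?_, ?_⟩
    · have := mul_le_mul (ihs.1 j hj) (iht.1 j hj) (mul_nonneg (p _ _) (p _ _))
        (mul_nonneg (y _ _) (y _ _))
      simp only [pv, yv]; linarith only [this]
    · have := mul_le_mul ihs.2.1 iht.2.1 (mul_nonneg (mul_nonneg (p _ _) (sq_nonneg _)) (p _ _))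
        (mul_nonneg (mul_nonneg (y _ _) (sq_nonneg _)) (y _ _))
      simp only [pv, yv]; linarith only [this]
    · have := mul_le_mul ihs.2.2 iht.2.2 (mul_nonneg (p _ _) (p _ _))
        (mul_nonneg (y _ _) (y _ _))
      simp only [pv, yv]; linarith only [this]
  | up s ih =>
    obtain ⟨hC, hJ, hK⟩ := ih
    have p := pv_pos n (by omega) s
    have y := yv_pos n (by omega) s
    have h12 := pv_mono n h hn s 1 (by omega) (by omega)
    have h23 := pv_mono n h hn s 2 (by omega) (by omega)
    have hAD := pv_lc n s 1 4 1 (by norm_num)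
    have hX := hC 2 le_rfl
    have hT := hC 3 (by norm_num)
    norm_num at h12 h23 hAD hX hT
    obtain ⟨k1, k2, k3⟩ := fork_step (p 0 (by omega) (by omega)).le (p 1 (by omega) (by omega))
      (p 2 (by omega) (by omega)) (p 3 (by omega) (by omega)) (p 4 (by omega) (by omega)).le
      (y 1 (by omega) (by omega)) (y 2 (by omega) (by omega)) (y 3 (by omega) (by omega))
      hX hT hJ hK hAD (h12.trans h23)
    have P0 : pv n (.up s) 0 = pv n s 1 := by
      simp only [pv]; rw [if_pos (by omega), pv_zero n s (0 - 1) (by omega)]; norm_num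
    have P1 : pv n (.up s) 1 = pv n s 0 + pv n s 2 := by
      simp only [pv]; rw [if_pos (by omega)]; norm_num
    have P2 : pv n (.up s) 2 = pv n s 1 + pv n s 3 := by
      simp only [pv]; rw [if_pos (by omega)]; norm_num
    have P3 : pv n (.up s) 3 = pv n s 2 + pv n s 4 := by
      simp only [pv]; rw [if_pos (by omega)]; norm_num
    have Y1 : yv n (.up s) 1 = yv n s 2 := by simp [yv]
    have Y2 : yv n (.up s) 2 = yv n s 1 + yv n s 1 + yv n s 3 := by
      simp [yv, yv_01 n (by omega) s]
    have Y3 : yv n (.up s) 3 = yv n s 2 + yv n s 4 := by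
      simp only [yv]; rw [if_neg (by omega), if_neg (by omega), if_pos (by omega)]; norm_num
    refine ⟨fun j hj => ?_, ?_, ?_⟩
    · by_cases hj2 : j = 2
      · subst hj2
        norm_num
        rw [P2, P3, Y2, Y3]
        exact k2
      by_cases hjn : j + 1 < (n : ℤ)
      swap
      · rw [pv_zero n _ (j + 1) (by omega), mul_zero]
        exact mul_nonneg (yv_nonneg _ _ _) (yv_nonneg _ _ _)
      simp only [pv, yv]
      rw [if_pos (by omega), if_pos (by omega), if_neg (by omega), if_neg (by omega),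
        if_pos (by omega), if_neg (by omega), if_neg (by omega), if_pos (by omega)]
      have a1 := hC (j - 1) (by omega)
      have a2 := hC j (by omega)
      have a3 := hC (j + 1) (by omega)
      have a4 := pv_lc n s (j - 1) (j + 1 + 1) 1 (by push_cast; ring)
      simp only [sub_add_cancel, add_sub_cancel_right] at a1 a4 ⊢
      exact bulk_step (pv_nonneg _ _ _) (p _ (by omega) (by omega)) (p _ (by omega) (by omega))
        (pv_nonneg _ _ _) a1 a2 a3 a4
    · rw [P1, P2, P3, Y1, Y2, Y3]; exact k3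
    · rw [P0, P3, Y1, Y2]; exact k1

end Pool.Agent.Work.MP_9e5f8f_co
end

-- merged part: Pool.Agent.Work.MP_9e5f8f_co.Fork2
section
/-! The path against the fork: summation. -/

set_option autoImplicit false

namespace Pool.Agent.Work.MP_9e5f8f_co

open Finset

/-- Alternating partial sums. -/
noncomputable def alt (P : ℕ → ℝ) : ℕ → ℝ
  | 0 => P 0
  | j + 1 => 2 * P (j + 1) - alt P j

lemma final_sum (n h : ℕ) (hn : n = 2 * h) (h3 : 3 ≤ h) (P Y : ℕ → ℝ)
    (hP : ∀ j, j < n → 0 < P j) (hY : ∀ j, j < n → 0 < Y j) (hPn : P n = 0) (hYn : Y n = 0)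
    (hsym : ∀ j k, j + k + 1 = n → P j = P k) (hmono : ∀ a, 2 * a + 2 ≤ n → P a ≤ P (a + 1))
    (hC : ∀ j, 2 ≤ j → P j * P (j + 1) ≤ Y j * Y (j + 1))
    (hJ : P 1 * P 2 ^ 2 * P 3 ≤ Y 1 * Y 2 ^ 2 * Y 3) (hK : P 0 * P 3 ≤ Y 1 * Y 2) :
    P 1 + (P 0 + P 2) + (P 1 + P 3) + ∑ j ∈ range (n - 3), (P (j + 2) + P (j + 4)) ≤
      Y 2 + Y 2 + (Y 1 + Y 1 + Y 3) + ∑ j ∈ range (n - 3), (Y (j + 2) + Y (j + 4)) := by
  have halt : ∀ j, 2 * j + 2 ≤ n → 0 ≤ alt P j ∧ alt P j ≤ 2 * P j := by
    intro j
    induction j with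
    | zero => intro _; have := hP 0 (by omega); simp only [alt]; constructor <;> linarith only [this]
    | succ j ih =>
      intro hj
      have h1 := ih (by omega)
      have h2 := hmono j (by omega)
      simp only [alt]
      constructor <;> linarith only [h1, h2]
  let c : ℕ → ℝ := fun j => alt P (min j (n - 2 - j))
  have hc0 : ∀ j, j + 2 ≤ n → 0 ≤ c j := fun j hj => (halt _ (by omega)).1
  have hcc : ∀ j, j + 3 ≤ n → c j + c (j + 1) = 2 * P (j + 1) := by
    intro j hj
    simp only [c]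
    by_cases hjh : j + 2 ≤ h
    · rw [min_eq_left (by omega), min_eq_left (by omega)]
      simp only [alt]; ring
    · rw [show min j (n - 2 - j) = (n - 3 - j) + 1 by omega,
        show min (j + 1) (n - 2 - (j + 1)) = n - 3 - j by omega,
        hsym (j + 1) (n - 3 - j + 1) (by omega)]
      simp only [alt]; ring
  have hclast : c (n - 2) = P (n - 1) := by
    simp only [c]
    rw [show min (n - 2) (n - 2 - (n - 2)) = 0 by omega, hsym (n - 1) 0 (by omega)]
    rfl
  have hc3 : c 3 = 2 * P 3 - 2 * P 2 + 2 * P 1 - P 0 := by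
    have a0 : c 0 = P 0 := by simp [c, alt]
    have a1 := hcc 0 (by omega)
    have a2 := hcc 1 (by omega)
    have a3 := hcc 2 (by omega)
    norm_num at a1 a2 a3
    linarith only [a0, a1, a2, a3]
  let r : ℕ → ℝ := fun j => Y j / P j
  have hr : ∀ j, j < n → Y j = r j * P j := by
    intro j hj
    have := hP j hj
    simp only [r]; field_simp
  have hrr : ∀ j, 2 ≤ j → j + 1 < n → 2 ≤ r j + r (j + 1) := by
    intro j hj hjn
    have a1 := hP j (by omega)
    have a2 := hP (j + 1) hjn
    have b1 : 0 < r j := div_pos (hY j (by omega)) a1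
    have b2 : 0 < r (j + 1) := div_pos (hY _ hjn) a2
    have a3 := hC j hj
    rw [hr j (by omega), hr (j + 1) hjn] at a3
    have a4 : 1 ≤ r j * r (j + 1) :=
      le_of_mul_le_mul_right (a := P j * P (j + 1)) (by linarith only [a3]) (by positivity)
    exact le_of_sq_le_sq (by linarith only [a4, sq_nonneg (r j - r (j + 1)), sq_nonneg (r j - r (j + (1 : ℕ)))]) (by positivity)
  have key : ∀ k, k + 6 ≤ n →
      (Y 2 - P 2) + (Y 3 - P 3) + c 3 * (r 4 - 1) + c (k + 4) * (r (k + 4) - 1) ≤
      ∑ j ∈ range (k + 1), (Y (j + 2) + Y (j + 4)) - ∑ j ∈ range (k + 1), (P (j + 2) + P (j + 4)) +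
        (Y (k + 3) - P (k + 3)) + (Y (k + 4) - P (k + 4)) := by
    intro k
    induction k with
    | zero =>
      intro hk
      have a1 := hcc 3 (by omega)
      have a2 := hr 4 (by omega)
      have a3 : c 3 * (r 4 - 1) + c 4 * (r 4 - 1) = 2 * (Y 4 - P 4) := by
        rw [← add_mul, a1, a2]; ring
      simp only [zero_add, Finset.sum_range_one]
      linarith only [a3]
    | succ k ih =>
      intro hk
      have a0 := ih (by omega)
      have a1 := hcc (k + 4) (by omega)
      have a2 := hr (k + 4 + 1) (by omega)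
      have a3 : c (k + 4) * (r (k + 4 + 1) - 1) + c (k + 4 + 1) * (r (k + 4 + 1) - 1) =
          2 * (Y (k + 4 + 1) - P (k + 4 + 1)) := by
        rw [← add_mul, a1, a2]; ring
      have a4 := mul_le_mul_of_nonneg_left (hrr (k + 4) (by omega) (by omega))
        (hc0 (k + 4) (by omega))
      rw [Finset.sum_range_succ _ (k + 1), Finset.sum_range_succ _ (k + 1)]
      simp only [show k + 1 + 2 = k + 3 by ring, show k + 1 + 4 = k + 4 + 1 by ring,
        show k + 1 + 3 = k + 4 by ring]
      linarith only [a0, a3, a4]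
  obtain ⟨k, hk⟩ : ∃ k, n = k + 6 := ⟨n - 6, by omega⟩
  have a0 := key k (by omega)
  have a2 := hr (k + 4 + 1) (by omega)
  have a4 := mul_le_mul_of_nonneg_left (hrr (k + 4) (by omega) (by omega))
    (hc0 (k + 4) (by omega))
  rw [show n - 2 = k + 4 by omega, show n - 1 = k + 4 + 1 by omega] at hclast
  have a5 : c (k + 4) * r (k + 4 + 1) = Y (k + 4 + 1) := by rw [hclast, a2]; ring
  rw [show n - 3 = k + 1 + 1 + 1 by omega, Finset.sum_range_succ _ (k + 1 + 1),
    Finset.sum_range_succ _ (k + 1 + 1), Finset.sum_range_succ _ (k + 1),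
    Finset.sum_range_succ _ (k + 1)]
  simp only [show k + 1 + 2 = k + 3 by ring, show k + 1 + 4 = k + 4 + 1 by ring,
    show k + 1 + 1 + 2 = k + 4 by ring, show k + 1 + 1 + 4 = n by omega, hPn, hYn]
  have b1 := hmono 0 (by omega)
  have b2 := hmono 1 (by omega)
  have b3 := hmono 2 (by omega)
  have b4 := hC 2 le_rfl
  have b5 := hC 3 (by omega)
  norm_num at b1 b2 b3 b4 b5
  have b6 : P 3 ≤ r 4 * Y 3 := by
    refine le_of_mul_le_mul_right (a := P 4) ?_ (hP 4 (by omega))
    rw [hr 4 (by omega)] at b5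
    linarith only [b5]
  have := fork_final (hP 1 (by omega)) b1 b2 b3 (hY 1 (by omega)) (hY 2 (by omega))
    (hY 3 (by omega)) b4 hJ hK hc3 b6
  linarith only [hc3, hclast, a0, a4, a5, this]

lemma sum_pick (n : ℕ) (g : ℤ → ℝ) (hg : ∀ j, ¬ (0 ≤ j ∧ j < (n : ℤ)) → g j = 0) (c : ℤ) :
    ∑ j : Fin n, (if (j.val : ℤ) = c then g j.val else 0) = g c := by
  by_cases hc : 0 ≤ c ∧ c < (n : ℤ)
  · rw [Finset.sum_eq_single (⟨c.toNat, by omega⟩ : Fin n)]
    · have : ((c.toNat : ℕ) : ℤ) = c := by omega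
      simp only [this, if_true]
    · intro b _ hb
      rw [if_neg]
      intro h
      apply hb
      apply Fin.ext
      simp only
      omega
    · simp
  · rw [hg c hc]
    refine Finset.sum_eq_zero fun j _ => ?_
    rw [if_neg]
    have := j.2
    omega

lemma ev_path (n : ℕ) (t : RT) : ∀ i : Fin n,
    ev (SimpleGraph.pathGraph n) t i = pv n t i.val := by
  induction t with
  | one => intro i; have := i.2; simp only [ev, pv]; rw [if_pos (by omega)]
  | mul a b iha ihb => intro i; simp only [ev, pv, iha i, ihb i]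
  | up a ih =>
    intro i
    have := i.2
    simp only [ev, pv, adjOp]
    rw [if_pos (by omega), ← sum_pick n _ (pv_zero n a) (i.val - 1),
      ← sum_pick n _ (pv_zero n a) (i.val + 1), ← Finset.sum_add_distrib]
    refine Finset.sum_congr rfl fun j _ => ?_
    rw [ih j]
    simp only [SimpleGraph.pathGraph_adj]
    split_ifs <;> first | omega | ring

lemma ev_fork (n : ℕ) (hn : 3 ≤ n) (t : RT) : ∀ i : Fin n,
    ev (spider n 1 2) t i = yv n t i.val := by
  induction t with
  | one => intro i; have := i.2; simp only [ev, yv]; rw [if_pos (by omega)]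
  | mul a b iha ihb => intro i; simp only [ev, yv, iha i, ihb i]
  | up a ih =>
    intro i
    have := i.2
    have hz := yv_zero n hn a
    simp only [ev, yv, adjOp]
    split_ifs with c1 c2 c3
    · rw [← sum_pick n _ hz 2]
      refine Finset.sum_congr rfl fun j _ => ?_
      rw [ih j]
      simp only [spider_adj]
      split_ifs <;> first | omega | ring
    · rw [← sum_pick n _ hz 0, ← sum_pick n _ hz 1, ← sum_pick n _ hz 3, ← Finset.sum_add_distrib,
        ← Finset.sum_add_distrib]
      refine Finset.sum_congr rfl fun j _ => ?_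
      rw [ih j]
      simp only [spider_adj]
      split_ifs <;> first | omega | ring
    · rw [← sum_pick n _ hz (i.val - 1), ← sum_pick n _ hz (i.val + 1), ← Finset.sum_add_distrib]
      refine Finset.sum_congr rfl fun j _ => ?_
      rw [ih j]
      simp only [spider_adj]
      split_ifs <;> first | omega | ring
    · omega

lemma fork_up (n h : ℕ) (hn : n = 2 * h) (h3 : 3 ≤ h) (t : RT) :
    ∑ i, ev (SimpleGraph.pathGraph n) (.up t) i ≤ ∑ i, ev (spider n 1 2) (.up t) i := by
  simp only [ev_path, ev_fork n (by omega)]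
  rw [Fin.sum_univ_eq_sum_range (fun j => pv n (.up t) (j : ℕ)) n,
    Fin.sum_univ_eq_sum_range (fun j => yv n (.up t) (j : ℕ)) n]
  obtain ⟨hC, hJ, hK⟩ := fork_inv n h hn h3 t
  have key := final_sum n h hn h3 (fun j => pv n t j) (fun j => yv n t j)
    (fun j hj => pv_pos n (by omega) t j (by omega) (by omega))
    (fun j hj => yv_pos n (by omega) t j (by omega) (by omega))
    (pv_zero n t n (by omega)) (yv_zero n (by omega) t n (by omega))
    (fun j k hjk => pv_symm n t j k (by omega))
    (fun a ha => by simpa using pv_mono n h hn t a (by omega) (by omega))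
    (fun j hj => by simpa using hC j (by omega)) (by simpa using hJ) (by simpa using hK)
  have e : n = 3 + (n - 3) := by omega
  have s1 : ∑ j ∈ range n, pv n (.up t) (j : ℕ) = pv n t 1 + (pv n t 0 + pv n t 2) +
      (pv n t 1 + pv n t 3) +
      ∑ j ∈ range (n - 3), (pv n t ((j + 2 : ℕ) : ℤ) + pv n t ((j + 4 : ℕ) : ℤ)) := by
    conv_lhs => rw [show range n = range (3 + (n - 3)) by rw [← e]]
    rw [Finset.sum_range_add]
    congr 1
    · simp only [Finset.sum_range_succ, Finset.sum_range_zero, pv]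
      rw [if_pos (by omega), if_pos (by omega), if_pos (by omega)]
      norm_num
      exact pv_zero n t _ (by omega)
    · refine Finset.sum_congr rfl fun j hj => ?_
      have := Finset.mem_range.mp hj
      simp only [pv]
      rw [if_pos (by omega)]
      congr 2 <;> push_cast <;> ring
  have s2 : ∑ j ∈ range n, yv n (.up t) (j : ℕ) = yv n t 2 + yv n t 2 +
      (yv n t 1 + yv n t 1 + yv n t 3) +
      ∑ j ∈ range (n - 3), (yv n t ((j + 2 : ℕ) : ℤ) + yv n t ((j + 4 : ℕ) : ℤ)) := by
    conv_lhs => rw [show range n = range (3 + (n - 3)) by rw [← e]]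
    rw [Finset.sum_range_add]
    congr 1
    · simp [Finset.sum_range_succ, yv, yv_01 n (by omega) t]
    · refine Finset.sum_congr rfl fun j hj => ?_
      have := Finset.mem_range.mp hj
      simp only [yv]
      rw [if_neg (by omega), if_neg (by omega), if_pos (by omega)]
      congr 2 <;> push_cast <;> ring
  rw [s1, s2]
  simpa using key

/-- The fork inequality. -/
theorem path_le_fork {m : ℕ} (S : SimpleGraph (Fin m)) (hS : S.IsTree) (n : ℕ) (h5 : 5 ≤ n)
    (he : Even n) :
    Nat.card (S →g SimpleGraph.pathGraph n) ≤ Nat.card (S →g spider n 1 2) := by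
  obtain ⟨h, hh⟩ := he
  obtain ⟨t, _, ht⟩ := exists_term S hS
  have : (Nat.card (S →g SimpleGraph.pathGraph n) : ℝ) ≤ Nat.card (S →g spider n 1 2) := by
    rw [ht, ht]
    rcases Nat.eq_zero_or_pos t.size with h0 | h0
    · rw [ev_size_zero _ t h0, ev_size_zero _ t h0]
    · obtain ⟨t', _, ht'⟩ := reroot t h0
      rw [ht', ht']
      exact fork_up n h (by omega) (by omega) t'
  exact_mod_cast this

end Pool.Agent.Work.MP_9e5f8f_co
end

-- merged part: Pool.Agent.Work.MP_9e5f8f_co.Entropy
section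
/-! An entropy lower bound for homomorphism counts out of trees. -/

set_option autoImplicit false

namespace Pool.Agent.Work.MP_9e5f8f_co

open Finset

lemma log_sum_ineq {ι : Type} (s : Finset ι) (c y : ι → ℝ) (hc : ∀ j ∈ s, 0 < c j)
    (hy : ∀ j ∈ s, 0 < y j) (ha : 0 < ∑ j ∈ s, c j) (hZ : 0 < ∑ j ∈ s, y j) :
    ∑ j ∈ s, c j * (Real.log (y j) - Real.log (c j)) ≤
      (∑ j ∈ s, c j) * (Real.log (∑ j ∈ s, y j) - Real.log (∑ j ∈ s, c j)) := by
  set a := ∑ j ∈ s, c j with hadef
  set Z := ∑ j ∈ s, y j with hZdef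
  have h1 : ∀ j ∈ s, c j * (Real.log (y j) - Real.log (c j)) ≤
      c j * (Real.log Z - Real.log a) + (y j * (a / Z) - c j) := by
    intro j hj
    have p1 := hc j hj
    have p2 := hy j hj
    have h := Real.log_le_sub_one_of_pos (show 0 < y j * a / (c j * Z) by positivity)
    rw [Real.log_div (by positivity) (by positivity), Real.log_mul p2.ne' ha.ne',
      Real.log_mul p1.ne' hZ.ne'] at h
    have h2 := mul_le_mul_of_nonneg_left h p1.le
    have h3 : c j * (y j * a / (c j * Z) - 1) = y j * (a / Z) - c j := by field_simp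
    linarith only [h2, h3]
  refine (Finset.sum_le_sum h1).trans (le_of_eq ?_)
  rw [Finset.sum_add_distrib, ← Finset.sum_mul, Finset.sum_sub_distrib, ← Finset.sum_mul,
    ← hadef, ← hZdef]
  field_simp
  ring

variable {W : Type} [Fintype W] (G : SimpleGraph W)

open Classical in
lemma adjOp_filter (y : W → ℝ) (i : W) :
    adjOp G y i = ∑ j ∈ Finset.univ.filter (G.Adj i), y j := by
  rw [Finset.sum_filter]; rfl

lemma adjOp_pos (hG : ∀ i, ∃ j, G.Adj i j) (y : W → ℝ) (hy : ∀ j, 0 < y j) (i : W) :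
    0 < adjOp G y i := by
  classical
  rw [adjOp_filter]
  obtain ⟨j, hj⟩ := hG i
  exact Finset.sum_pos (fun j _ => hy j) ⟨j, by simpa using hj⟩

lemma ev_pos (hG : ∀ i, ∃ j, G.Adj i j) (t : RT) : ∀ i, 0 < ev G t i := by
  induction t with
  | one => intro i; simp [ev]
  | mul a b iha ihb => intro i; exact mul_pos (iha i) (ihb i)
  | up a iha => intro i; exact adjOp_pos G hG _ iha i

lemma entropy_ind (hG : ∀ i, ∃ j, G.Adj i j) (c : W → ℝ) (hc : ∀ j, 0 < c j) (t : RT) :
    t.size * ∑ i, c i * adjOp G c i * (Real.log (adjOp G c i) - Real.log (c i)) ≤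
      ∑ i, c i * adjOp G c i * Real.log (ev G t i) := by
  induction t with
  | one => simp [ev, RT.size]
  | mul a b iha ihb =>
    have : ∑ i, c i * adjOp G c i * Real.log (ev G (.mul a b) i) =
        ∑ i, c i * adjOp G c i * Real.log (ev G a i) +
        ∑ i, c i * adjOp G c i * Real.log (ev G b i) := by
      rw [← Finset.sum_add_distrib]
      refine Finset.sum_congr rfl fun i _ => ?_
      simp only [ev]
      rw [Real.log_mul (ev_pos G hG a i).ne' (ev_pos G hG b i).ne']
      ring
    rw [this]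
    simp only [RT.size]
    push_cast
    linarith
  | up a ih =>
    have h1 : ∀ i, c i * adjOp G (fun j => c j * (Real.log (ev G a j) - Real.log (c j))) i ≤
        c i * (adjOp G c i * (Real.log (ev G (.up a) i) - Real.log (adjOp G c i))) := by
      intro i
      refine mul_le_mul_of_nonneg_left ?_ (hc i).le
      have p1 := adjOp_pos G hG c hc i
      have p2 := adjOp_pos G hG _ (ev_pos G hG a) i
      simp only [ev]
      rw [adjOp_filter] at p1 p2
      rw [adjOp_filter, adjOp_filter, adjOp_filter]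
      exact log_sum_ineq _ c (ev G a) (fun j _ => hc j) (fun j _ => ev_pos G hG a j) p1 p2
    have h2 := Finset.sum_le_sum (s := Finset.univ) fun i _ => h1 i
    rw [adjOp_symm] at h2
    have h3 : ∑ i, c i * adjOp G c i * Real.log (ev G a i) +
        ∑ i, c i * adjOp G c i * (Real.log (adjOp G c i) - Real.log (c i)) =
        ∑ i, adjOp G c i * (c i * (Real.log (ev G a i) - Real.log (c i))) +
        ∑ i, c i * adjOp G c i * Real.log (adjOp G c i) := by
      rw [← Finset.sum_add_distrib, ← Finset.sum_add_distrib]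
      exact Finset.sum_congr rfl fun i _ => by ring
    have h4 : ∑ i, c i * (adjOp G c i * (Real.log (ev G (.up a) i) - Real.log (adjOp G c i))) +
        ∑ i, c i * adjOp G c i * Real.log (adjOp G c i) =
        ∑ i, c i * adjOp G c i * Real.log (ev G (.up a) i) := by
      rw [← Finset.sum_add_distrib]
      exact Finset.sum_congr rfl fun i _ => by ring
    simp only [RT.size]
    push_cast
    linarith

lemma entropy_total [Nonempty W] (hG : ∀ i, ∃ j, G.Adj i j) (c : W → ℝ) (hc : ∀ j, 0 < c j)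
    (t : RT) :
    (t.size - 1) * ∑ i, c i * adjOp G c i * (Real.log (adjOp G c i) - Real.log (c i)) -
      2 * ∑ i, c i * adjOp G c i * Real.log (c i) ≤
      (∑ i, c i * adjOp G c i) *
        (Real.log (∑ i, ev G t i) - Real.log (∑ i, c i * adjOp G c i)) := by
  have hs : ∀ i, 0 < c i * adjOp G c i := fun i => mul_pos (hc i) (adjOp_pos G hG c hc i)
  have h1 := log_sum_ineq Finset.univ (fun i => c i * adjOp G c i) (ev G t) (fun i _ => hs i)
    (fun i _ => ev_pos G hG t i) (Finset.sum_pos (fun i _ => hs i) Finset.univ_nonempty)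
    (Finset.sum_pos (fun i _ => ev_pos G hG t i) Finset.univ_nonempty)
  have h2 := entropy_ind G hG c hc t
  have h3 : ∑ i, c i * adjOp G c i * (Real.log (ev G t i) - Real.log (c i * adjOp G c i)) +
      ∑ i, c i * adjOp G c i * (Real.log (adjOp G c i) - Real.log (c i)) +
      2 * ∑ i, c i * adjOp G c i * Real.log (c i) =
      ∑ i, c i * adjOp G c i * Real.log (ev G t i) := by
    rw [Finset.mul_sum, ← Finset.sum_add_distrib, ← Finset.sum_add_distrib]
    refine Finset.sum_congr rfl fun i _ => ?_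
    rw [Real.log_mul (hc i).ne' (adjOp_pos G hG c hc i).ne']
    ring
  linarith only [h1, h2, h3]

/-- The bound for a graph with `n - 1` edges and four pendant vertices, no two adjacent. -/
lemma four_leaves (hG : ∀ i, ∃ j, G.Adj i j) (n : ℕ) (hn : Fintype.card W = n) (h5 : 5 ≤ n)
    (hsum : ∑ i, adjOp G (fun _ => 1) i = 2 * ((n : ℝ) - 1)) (L : Finset W) (hL : L.card = 4)
    (hL1 : ∀ i ∈ L, adjOp G (fun _ => 1) i = 1) (hL2 : ∀ i ∈ L, ∀ j ∈ L, ¬ G.Adj i j)
    (t : RT) (ht : 3 ≤ t.size) :
    (8 * (n : ℝ) - 14) * 2 ^ (t.size - 3) ≤ ∑ i, ev G t i := by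
  classical
  have : Nonempty W := Fintype.card_pos_iff.mp (by omega)
  let c : W → ℝ := fun i => if i ∈ L then 1 / 2 else 1
  have hc : ∀ j, 0 < c j := by intro j; simp only [c]; split_ifs <;> norm_num
  have ha : ∀ i ∈ L, adjOp G c i = 1 := by
    intro i hi
    rw [← hL1 i hi]
    unfold adjOp
    refine Finset.sum_congr rfl fun j _ => ?_
    split_ifs with h
    · simp only [c]; rw [if_neg fun hj => hL2 i hi j hj h]
    · rfl
  have hind : ∀ x : ℝ, ∑ i, (if i ∈ L then x else 0) = 4 * x := by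
    intro x
    rw [← Finset.sum_filter]
    simp [hL]
  have hsa : ∑ i, adjOp G c i = 2 * (n : ℝ) - 4 := by
    have h1 := adjOp_symm G (fun _ => 1) c
    simp only [one_mul] at h1
    rw [h1]
    have : ∀ i, adjOp G (fun _ => 1) i * c i =
        adjOp G (fun _ => 1) i - (if i ∈ L then 1 / 2 else 0) := by
      intro i
      simp only [c]
      split_ifs with h
      · rw [hL1 i h]; norm_num
      · ring
    simp only [this]
    rw [Finset.sum_sub_distrib, hind, hsum]; ring
  have hs : ∑ i, c i * adjOp G c i = 2 * (n : ℝ) - 6 := by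
    have : ∀ i, c i * adjOp G c i = adjOp G c i - (if i ∈ L then 1 / 2 else 0) := by
      intro i
      simp only [c]
      split_ifs with h
      · rw [ha i h]; norm_num
      · ring
    simp only [this]
    rw [Finset.sum_sub_distrib, hind, hsa]; ring
  have hlog : Real.log (1 / 2) = - Real.log 2 := by rw [one_div, Real.log_inv]
  have hlc : ∑ i, c i * adjOp G c i * Real.log (c i) = - 2 * Real.log 2 := by
    have : ∀ i, c i * adjOp G c i * Real.log (c i) =
        (if i ∈ L then - (1 / 2) * Real.log 2 else 0) := by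
      intro i
      by_cases h : i ∈ L
      · rw [ha i h]; simp only [c, if_pos h, hlog]; ring
      · simp only [c, if_neg h, Real.log_one, mul_zero]
    simp only [this]
    rw [hind]; ring
  have hΦ : (2 * (n : ℝ) - 6) * Real.log 2 ≤
      ∑ i, c i * adjOp G c i * (Real.log (adjOp G c i) - Real.log (c i)) := by
    have : ∀ i, c i * adjOp G c i * Real.log 2 + (c i * adjOp G c i - 2) +
        (if i ∈ L then 3 / 2 else 0) ≤
        c i * adjOp G c i * (Real.log (adjOp G c i) - Real.log (c i)) := by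
      intro i
      by_cases h : i ∈ L
      · rw [ha i h]; simp only [c, if_pos h, hlog, Real.log_one]; linarith only []
      · have p := adjOp_pos G hG c hc i
        have hci : c i = 1 := by simp only [c, if_neg h]
        rw [hci, if_neg h, Real.log_one]
        have h1 := Real.log_le_sub_one_of_pos (show 0 < 2 / adjOp G c i by positivity)
        rw [Real.log_div (by norm_num) p.ne'] at h1
        have h2 := mul_le_mul_of_nonneg_left h1 p.le
        have h3 : adjOp G c i * (2 / adjOp G c i - 1) = 2 - adjOp G c i := by field_simp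
        linarith only [h2, h3]
    have h1 := Finset.sum_le_sum (s := Finset.univ) fun i _ => this i
    rw [Finset.sum_add_distrib, Finset.sum_add_distrib, ← Finset.sum_mul, Finset.sum_sub_distrib,
      hs, hind] at h1
    simp only [Finset.sum_const, Finset.card_univ, hn, nsmul_eq_mul] at h1
    linarith only [h1]
  have h1 := entropy_total G hG c hc t
  rw [hs, hlc] at h1
  have hn5 : (5 : ℝ) ≤ n := by exact_mod_cast h5
  have hspos : 0 < 2 * (n : ℝ) - 6 := by linarith only [hn5]
  obtain ⟨k, hk⟩ : ∃ k, t.size = k + 3 := ⟨t.size - 3, by omega⟩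
  have hZ : 0 < ∑ i, ev G t i := Finset.sum_pos (fun i _ => ev_pos G hG t i) Finset.univ_nonempty
  rw [hk] at h1 ⊢
  push_cast at h1
  have h2 := mul_le_mul_of_nonneg_left hΦ (show (0 : ℝ) ≤ k + 3 - 1 by
    have : (0 : ℝ) ≤ k := Nat.cast_nonneg k
    linarith only [])
  have h3 : (k + 2) * Real.log 2 + 4 * Real.log 2 / (2 * n - 6) + Real.log (2 * n - 6) ≤
      Real.log (∑ i, ev G t i) := by
    refine le_of_mul_le_mul_left (a := 2 * (n : ℝ) - 6) ?_ hspos
    have : (2 * (n : ℝ) - 6) * (4 * Real.log 2 / (2 * n - 6)) = 4 * Real.log 2 := by field_simp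
    linarith only [h1, h2, this]
  have h4 := Real.exp_le_exp.mpr h3
  rw [Real.exp_log hZ, Real.exp_add, Real.exp_add, Real.exp_log hspos] at h4
  have h5 : Real.exp ((k + 2) * Real.log 2) = 2 ^ k * 4 := by
    rw [show ((k : ℝ) + 2) = ((k + 2 : ℕ) : ℝ) by push_cast; ring, Real.exp_nat_mul,
      Real.exp_log (by norm_num)]
    ring
  have h6 := Real.add_one_le_exp (4 * Real.log 2 / (2 * n - 6))
  have h7 : (4 * Real.log 2 / (2 * n - 6) + 1) * (2 * (n : ℝ) - 6) = 4 * Real.log 2 + (2 * n - 6) := by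
    field_simp
  have h8 := mul_le_mul_of_nonneg_right h6 hspos.le
  have h9 := Real.log_two_gt_d9
  rw [h5] at h4
  simp only [Nat.add_sub_cancel]
  have h10 : (0 : ℝ) < 2 ^ k := by positivity
  have h11 : 2 * (n : ℝ) - 7 / 2 ≤ Real.exp (4 * Real.log 2 / (2 * n - 6)) * (2 * n - 6) := by
    linarith only [h7, h8, h9]
  have h12 := mul_le_mul_of_nonneg_left h11 (show (0 : ℝ) ≤ 2 ^ k * 4 by positivity)
  linarith only [h4, h12]

end Pool.Agent.Work.MP_9e5f8f_co
end

-- merged part: Pool.Agent.Work.MP_9e5f8f_co.Classify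
section
/-! A connected graph with at most one branch vertex, of degree three, has a spanning spider. -/

set_option autoImplicit false

namespace Pool.Agent.Work.MP_9e5f8f_co

/-- `v` has three distinct neighbours. -/
def Br3 {W : Type} (T : SimpleGraph W) (v : W) : Prop :=
  ∃ a b c, T.Adj v a ∧ T.Adj v b ∧ T.Adj v c ∧ a ≠ b ∧ a ≠ c ∧ b ≠ c

/-- `v` has four distinct neighbours. -/
def Br4 {W : Type} (T : SimpleGraph W) (v : W) : Prop :=
  ∃ a b c d, T.Adj v a ∧ T.Adj v b ∧ T.Adj v c ∧ T.Adj v d ∧ a ≠ b ∧ a ≠ c ∧ b ≠ c ∧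
    a ≠ d ∧ b ≠ d ∧ c ≠ d

lemma emb_recenter {W : Type} (T : SimpleGraph W) (f g : ℕ → W) (a b i : ℕ) (u : W)
    (h0 : f 0 = g 0) (hf : ∀ j, j < a → T.Adj (f j) (f (j + 1)))
    (hg : ∀ j, j < b → T.Adj (g j) (g (j + 1)))
    (hff : ∀ j k, j ≤ a → k ≤ a → f j = f k → j = k)
    (hgg : ∀ j k, j ≤ b → k ≤ b → g j = g k → j = k)
    (hfg : ∀ j k, j ≤ a → k ≤ b → f j = g k → j = 0 ∧ k = 0)
    (hi : i ≤ a) (hu : T.Adj (f i) u) (hfu : ∀ j, j ≤ a → f j ≠ u) (hgu : ∀ j, j ≤ b → g j ≠ u) :
    Emb T ![a - i, i + b, 1] := by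
  let F : Fin 3 → ℕ → W := ![fun j => f (i + j), fun j => if j ≤ i then f (i - j) else g (j - i),
    fun j => if j = 0 then f i else u]
  have hF0 : ∀ j, F 0 j = f (i + j) := fun j => rfl
  have hF1 : ∀ j, F 1 j = if j ≤ i then f (i - j) else g (j - i) := fun j => rfl
  have hF2 : ∀ j, F 2 j = if j = 0 then f i else u := fun j => rfl
  have hgf : ∀ j k, j ≤ b → k ≤ a → g j = f k → j = 0 ∧ k = 0 :=
    fun j k hj hk h => (hfg k j hk hj h.symm).symm
  refine ⟨F, ?_, ?_, ?_⟩
  · have : ∀ k, F k 0 = f i := by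
      intro k
      fin_cases k
      · exact hF0 0
      · simpa using hF1 0
      · simpa using hF2 0
    intro k l; rw [this, this]
  · intro k j hj
    fin_cases k
    · simp only [Fin.zero_eta, Matrix.cons_val_zero] at hj
      exact hf (i + j) (by omega)
    · simp only [Fin.mk_one, Matrix.cons_val_one, Matrix.cons_val_zero] at hj
      change T.Adj (F 1 j) (F 1 (j + 1))
      rw [hF1, hF1]
      by_cases c1 : j + 1 ≤ i
      · rw [if_pos (by omega), if_pos c1, show i - j = i - (j + 1) + 1 by omega]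
        exact (hf _ (by omega)).symm
      · rw [if_neg c1, show j + 1 - i = j - i + 1 by omega]
        by_cases c2 : j ≤ i
        · rw [if_pos c2, show i - j = 0 by omega, h0, show j - i = 0 by omega]
          exact hg 0 (by omega)
        · rw [if_neg c2]
          exact hg _ (by omega)
    · simp only [Fin.reduceFinMk, Matrix.cons_val] at hj
      change T.Adj (F 2 j) (F 2 (j + 1))
      rw [hF2, hF2, if_pos (by omega), if_neg (by omega)]
      exact hu
  · intro k l j j' hj hj' h
    fin_cases k <;> fin_cases l <;>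
      simp only [Fin.zero_eta, Fin.mk_one, Fin.reduceFinMk, Matrix.cons_val_zero,
        Matrix.cons_val_one, Matrix.cons_val, hF0, hF1, hF2, Fin.reduceEq, false_and, true_and,
        or_false] at hj hj' h ⊢ <;>
      (try split_ifs at h) <;>
      first
        | omega
        | (have := hff _ _ (by omega) (by omega) h; omega)
        | (have := hgg _ _ (by omega) (by omega) h; omega)
        | (have := hfg _ _ (by omega) (by omega) h; omega)
        | (have := hgf _ _ (by omega) (by omega) h; omega)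
        | exact absurd h (hfu _ (by omega))
        | exact absurd h (hgu _ (by omega))
        | exact absurd h.symm (hfu _ (by omega))
        | exact absurd h.symm (hgu _ (by omega))

lemma emb_step {W : Type} [Fintype W] (T : SimpleGraph W) (hT : T.Connected)
    (h4 : ∀ v, ¬ Br4 T v) (h3 : ∀ u v, Br3 T u → Br3 T v → u = v)
    (len : Fin 3 → ℕ) (h : Emb T len) (hlt : len 0 + len 1 + len 2 + 1 < Fintype.card W) :
    ∃ len' : Fin 3 → ℕ, Emb T len' ∧ len' 0 + len' 1 + len' 2 = len 0 + len 1 + len 2 + 1 := by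
  classical
  obtain ⟨F, h0, h1, h2⟩ := h
  let I : Set W := {w | ∃ k i, i ≤ len k ∧ F k i = w}
  have hex : ∃ w, w ∉ I := by
    by_contra hcon
    push Not at hcon
    let G : Option (Σ k : Fin 3, Fin (len k)) → W := fun o =>
      match o with
      | none => F 0 0
      | some ⟨k, i⟩ => F k (i.val + 1)
    have hG : Function.Surjective G := by
      intro w
      obtain ⟨k, i, hi, hw⟩ := hcon w
      rcases i with _ | i
      · exact ⟨none, (h0 0 k).trans hw⟩
      · exact ⟨some ⟨k, ⟨i, by omega⟩⟩, hw⟩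
    have := Fintype.card_le_of_surjective G hG
    simp [Fin.sum_univ_three] at this
    omega
  obtain ⟨w, hw⟩ := hex
  obtain ⟨p⟩ := hT.preconnected (F 0 0) w
  obtain ⟨⟨⟨x, u⟩, hxu⟩, -, hx, hu⟩ := p.exists_boundary_dart I ⟨0, 0, by omega, rfl⟩ hw
  obtain ⟨k, i, hi, rfl⟩ := hx
  change T.Adj (F k i) u at hxu
  change u ∉ I at hu
  have hne : ∀ l j, j ≤ len l → F l j ≠ u := fun l j hj h => hu ⟨l, j, hj, h⟩
  by_cases hend : i = len k
  · -- extend the leg
    refine ⟨Function.update len k (len k + 1),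
      ⟨fun l j => if l = k ∧ j = len k + 1 then u else F l j, ?_, ?_, ?_⟩, ?_⟩
    · intro l l'; simp [h0 l l']
    · intro l j hj
      by_cases hl : l = k
      · subst hl
        simp only [Function.update_self] at hj
        by_cases hj' : j = len l
        · subst hj'
          simp only [true_and, if_true]
          rw [if_neg (by omega), ← hend]
          exact hxu
        · simp only [true_and]
          rw [if_neg (by omega), if_neg (by omega)]
          exact h1 l j (by omega)
      · simp only [Function.update_of_ne hl] at hj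
        simp only [hl, false_and, if_false]
        exact h1 l j hj
    · intro l l' j j' hj hj' h
      have hb : ∀ l j, j ≤ Function.update len k (len k + 1) l → ¬ (l = k ∧ j = len k + 1) →
          j ≤ len l := by
        intro l j hj hn
        by_cases hl : l = k
        · subst hl
          simp only [Function.update_self] at hj
          simp only [true_and] at hn
          omega
        · simpa only [Function.update_of_ne hl] using hj
      simp only at h
      split_ifs at h with c1 c2 c2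
      · exact Or.inr ⟨c1.1.trans c2.1.symm, by omega⟩
      · exact absurd h.symm (hne _ _ (hb _ _ hj' c2))
      · exact absurd h (hne _ _ (hb _ _ hj c1))
      · exact h2 _ _ _ _ (hb _ _ hj c1) (hb _ _ hj' c2) h
    · fin_cases k <;> simp <;> omega
  · have hik : i < len k := by omega
    by_cases hz : ∃ l, len l = 0
    · obtain ⟨l, hl⟩ := hz
      have hlk : l ≠ k := by rintro rfl; omega
      obtain ⟨k', hk1, hk2, hsum⟩ : ∃ k' : Fin 3, k' ≠ k ∧ k' ≠ l ∧
          len k + len k' + len l = len 0 + len 1 + len 2 := by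
        fin_cases k <;> fin_cases l <;> simp at hlk ⊢
        · exact ⟨2, by decide, by decide, by omega⟩
        · exact ⟨1, by decide, by decide, by omega⟩
        · exact ⟨2, by decide, by decide, by omega⟩
        · exact ⟨0, by decide, by decide, by omega⟩
        · exact ⟨1, by decide, by decide, by omega⟩
        · exact ⟨0, by decide, by decide, by omega⟩
      refine ⟨![len k - i, i + len k', 1], emb_recenter T (F k) (F k') (len k) (len k') i u
        (h0 _ _) (h1 k) (h1 k') ?_ ?_ ?_ hi hxu (hne k) (hne k'), ?_⟩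
      · intro j j' hj hj' h
        have := h2 _ _ _ _ hj hj' h
        omega
      · intro j j' hj hj' h
        have := h2 _ _ _ _ hj hj' h
        omega
      · intro j j' hj hj' h
        rcases h2 _ _ _ _ hj hj' h with h | h
        · exact h
        · exact absurd h.1.symm hk1
      · simp only [Matrix.cons_val_zero, Matrix.cons_val_one, Matrix.cons_val]
        omega
    · exfalso
      push Not at hz
      have hpos : ∀ l, 1 ≤ len l := fun l => Nat.one_le_iff_ne_zero.mpr (hz l)
      have hadj : ∀ l, T.Adj (F 0 0) (F l 1) := fun l => by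
        rw [h0 0 l]; exact h1 l 0 (hpos l)
      have hd : ∀ l l', l ≠ l' → F l 1 ≠ F l' 1 := by
        intro l l' hl h
        rcases h2 _ _ _ _ (hpos l) (hpos l') h with h | h
        · omega
        · exact hl h.1
      rcases i with _ | i
      · refine h4 (F 0 0) ⟨F 0 1, F 1 1, F 2 1, u, hadj 0, hadj 1, hadj 2, ?_,
          hd _ _ (by decide), hd _ _ (by decide), hd _ _ (by decide),
          hne _ _ (hpos _), hne _ _ (hpos _), hne _ _ (hpos _)⟩
        rw [h0 0 k]; exact hxu
      · have hb1 : Br3 T (F 0 0) := ⟨F 0 1, F 1 1, F 2 1, hadj 0, hadj 1, hadj 2,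
          hd _ _ (by decide), hd _ _ (by decide), hd _ _ (by decide)⟩
        have hb2 : Br3 T (F k (i + 1)) := by
          refine ⟨F k i, F k (i + 1 + 1), u, (h1 k i (by omega)).symm, h1 k (i + 1) hik, hxu, ?_,
            hne _ _ (by omega), hne _ _ (by omega)⟩
          intro h
          have := h2 _ _ _ _ (by omega) (by omega) h
          omega
        have := h2 _ _ _ _ (by omega) hi (h3 _ _ hb1 hb2)
        omega

theorem exists_emb {W : Type} [Fintype W] (T : SimpleGraph W) (hT : T.Connected)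
    (h4 : ∀ v, ¬ Br4 T v) (h3 : ∀ u v, Br3 T u → Br3 T v → u = v) :
    ∃ len : Fin 3 → ℕ, Emb T len ∧ Fintype.card W = len 0 + len 1 + len 2 + 1 := by
  have key : ∀ N, N + 1 ≤ Fintype.card W →
      ∃ len : Fin 3 → ℕ, Emb T len ∧ len 0 + len 1 + len 2 = N := by
    intro N
    induction N with
    | zero =>
      intro _
      obtain ⟨r⟩ := hT.nonempty
      refine ⟨fun _ => 0, ⟨fun _ _ => r, fun _ _ => rfl,
        fun k i hi => absurd hi (Nat.not_lt_zero _), ?_⟩, rfl⟩
      intro k l i j hi hj _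
      left
      simp only at hi hj
      omega
    | succ N ih =>
      intro hN
      obtain ⟨len, h, hs⟩ := ih (by omega)
      obtain ⟨len', h', hs'⟩ := emb_step T hT h4 h3 len h (by omega)
      exact ⟨len', h', by omega⟩
  have hpos : 0 < Fintype.card W := Fintype.card_pos_iff.mpr hT.nonempty
  obtain ⟨len, h, hs⟩ := key (Fintype.card W - 1) (by omega)
  exact ⟨len, h, by omega⟩

end Pool.Agent.Work.MP_9e5f8f_co
end

-- merged part: Pool.Agent.Work.MP_9e5f8f_co.Main
section
/-! Assembling the proof. -/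

set_option autoImplicit false

namespace Pool.Agent.Work.MP_9e5f8f_co

open Finset

lemma sum_ind (n c : ℕ) (hc : c < n) (x : ℝ) :
    ∑ j : Fin n, (if j.val = c then x else 0) = x := by
  rw [Finset.sum_eq_single (⟨c, hc⟩ : Fin n)]
  · simp
  · intro b _ hb
    rw [if_neg fun h => hb (Fin.ext h)]
  · simp

lemma path_deg (n : ℕ) (hn : 2 ≤ n) (j : Fin n) :
    adjOp (SimpleGraph.pathGraph n) (fun _ => 1) j =
      if j.val = 0 ∨ j.val = n - 1 then 1 else 2 := by
  have h := ev_path n (.up .one) j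
  have hj := j.2
  simp only [ev, pv] at h
  rw [h]
  split_ifs <;> first | omega | norm_num

lemma path_deg2 (n : ℕ) (hn : 5 ≤ n) (j : Fin n) :
    adjOp (SimpleGraph.pathGraph n) (adjOp (SimpleGraph.pathGraph n) (fun _ => 1)) j =
      if j.val = 0 ∨ j.val = n - 1 then 2 else if j.val = 1 ∨ j.val = n - 2 then 3 else 4 := by
  have h := ev_path n (.up (.up .one)) j
  have hj := j.2
  simp only [ev, pv] at h
  rw [h]
  split_ifs <;> first | omega | norm_num

lemma sum_up {W : Type} [Fintype W] (G : SimpleGraph W) (t : RT) :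
    ∑ i, ev G (.up t) i = ∑ i, adjOp G (fun _ => 1) i * ev G t i := by
  rw [← adjOp_symm]; simp [ev]

lemma sum_le_ends (n : ℕ) (hn : 5 ≤ n) (f : Fin n → ℝ) (a b : ℝ)
    (hf : ∀ j, f j ≤ if j.val = 0 ∨ j.val = n - 1 then a - b else a) :
    ∑ j, f j ≤ n * a - 2 * b := by
  have h1 : ∀ j : Fin n, f j ≤ a - (if j.val = 0 then b else 0) -
      (if j.val = n - 1 then b else 0) := by
    intro j
    have := hf j
    split_ifs at this ⊢ <;> first | omega | linarith only [this]
  refine (Finset.sum_le_sum fun j _ => h1 j).trans (le_of_eq ?_)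
  rw [Finset.sum_sub_distrib, Finset.sum_sub_distrib, sum_ind n 0 (by omega),
    sum_ind n (n - 1) (by omega)]
  simp
  ring

lemma path_upper (n : ℕ) (hn : 5 ≤ n) (k : ℕ) : ∀ t : RT, t.size = k + 3 →
    ∑ i, ev (SimpleGraph.pathGraph n) t i ≤ (8 * (n : ℝ) - 14) * 2 ^ k := by
  induction k with
  | zero =>
    intro t ht
    obtain ⟨t', h1, h2⟩ := reroot t (by omega)
    rw [h2, sum_up]
    rcases ev_size_two (SimpleGraph.pathGraph n) t' (by omega) with h | h
    · rw [h]
      refine (sum_le_ends n hn _ 8 7 fun j => ?_).trans (le_of_eq (by ring))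
      simp only [path_deg n (by omega)]
      split_ifs <;> norm_num
    · rw [h]
      have h3 : ∀ j : Fin n, adjOp (SimpleGraph.pathGraph n) (fun _ => 1) j *
          adjOp (SimpleGraph.pathGraph n) (adjOp (SimpleGraph.pathGraph n) (fun _ => 1)) j ≤
          8 - (if j.val = 0 then 6 else 0) - (if j.val = n - 1 then 6 else 0) -
            (if j.val = 1 then 2 else 0) := by
        intro j
        rw [path_deg n (by omega), path_deg2 n hn]
        split_ifs <;> first | omega | norm_num
      refine (Finset.sum_le_sum fun j _ => h3 j).trans (le_of_eq ?_)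
      rw [Finset.sum_sub_distrib, Finset.sum_sub_distrib, Finset.sum_sub_distrib,
        sum_ind n 0 (by omega), sum_ind n (n - 1) (by omega), sum_ind n 1 (by omega)]
      simp
      ring
  | succ k ih =>
    intro t ht
    obtain ⟨t', h1, h2⟩ := reroot t (by omega)
    rw [h2, sum_up]
    have h3 := ih t' (by omega)
    have h4 : ∑ i, adjOp (SimpleGraph.pathGraph n) (fun _ => 1) i *
        ev (SimpleGraph.pathGraph n) t' i ≤ ∑ i, 2 * ev (SimpleGraph.pathGraph n) t' i := by
      refine Finset.sum_le_sum fun i _ => mul_le_mul_of_nonneg_right ?_ (ev_nonneg _ _ _)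
      rw [path_deg n (by omega)]
      split_ifs <;> norm_num
    rw [← Finset.mul_sum] at h4
    rw [pow_succ]
    linarith only [h3, h4]

lemma adjOp_one {W : Type} [Fintype W] (G : SimpleGraph W) [DecidableRel G.Adj] (i : W) :
    adjOp G (fun _ => 1) i = G.degree i := by
  classical
  rw [adjOp_filter, ← SimpleGraph.card_neighborFinset_eq_degree, SimpleGraph.neighborFinset_eq_filter]
  simp only [Finset.sum_const, nsmul_eq_mul, mul_one]
  congr!

lemma br3_degree {W : Type} [Fintype W] (G : SimpleGraph W) [DecidableRel G.Adj] (v : W)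
    (h : Br3 G v) : 3 ≤ G.degree v := by
  classical
  obtain ⟨a, b, c, ha, hb, hc, h1, h2, h3⟩ := h
  rw [← SimpleGraph.card_neighborFinset_eq_degree,
    ← (Finset.card_eq_three.mpr ⟨a, b, c, h1, h2, h3, rfl⟩ : ({a, b, c} : Finset W).card = 3)]
  refine Finset.card_le_card fun x hx => ?_
  simp only [Finset.mem_insert, Finset.mem_singleton] at hx
  rcases hx with rfl | rfl | rfl <;> simpa

lemma br4_degree {W : Type} [Fintype W] (G : SimpleGraph W) [DecidableRel G.Adj] (v : W)
    (h : Br4 G v) : 4 ≤ G.degree v := by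
  classical
  obtain ⟨a, b, c, d, ha, hb, hc, hd, h1, h2, h3, h4, h5, h6⟩ := h
  have : ({a, b, c, d} : Finset W).card = 4 := by
    rw [Finset.card_insert_of_notMem (by simp [h1, h2, h4]),
      Finset.card_insert_of_notMem (by simp [h3, h5]), Finset.card_pair h6]
  rw [← SimpleGraph.card_neighborFinset_eq_degree, ← this]
  refine Finset.card_le_card fun x hx => ?_
  simp only [Finset.mem_insert, Finset.mem_singleton] at hx
  rcases hx with rfl | rfl | rfl | rfl <;> simpa

lemma leaves_not_adj {n : ℕ} (hn : 3 ≤ n) (T : SimpleGraph (Fin n)) [DecidableRel T.Adj]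
    (hT : T.Connected) (i j : Fin n) (hi : T.degree i = 1) (hj : T.degree j = 1) :
    ¬ T.Adj i j := by
  intro hij
  obtain ⟨a, _, ha⟩ := SimpleGraph.degree_eq_one_iff_existsUnique_adj.mp hi
  obtain ⟨b, _, hb⟩ := SimpleGraph.degree_eq_one_iff_existsUnique_adj.mp hj
  have hex : ∃ w : Fin n, w ∉ ({i, j} : Finset (Fin n)) := by
    by_contra hcon
    push Not at hcon
    have h1 : (Finset.univ : Finset (Fin n)).card ≤ ({i, j} : Finset (Fin n)).card :=
      Finset.card_le_card fun w _ => hcon w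
    have h2 := Finset.card_le_two (a := i) (b := j)
    simp at h1
    omega
  obtain ⟨w, hw⟩ := hex
  obtain ⟨p⟩ := hT.preconnected i w
  obtain ⟨⟨⟨x, u⟩, hxu⟩, -, hx, hu⟩ := p.exists_boundary_dart {v | v = i ∨ v = j} (by simp)
    (by simpa using hw)
  change T.Adj x u at hxu
  simp only [Set.mem_setOf_eq, not_or] at hx hu
  rcases hx with rfl | rfl
  · exact hu.2 ((ha _ hxu).trans (ha _ hij).symm)
  · exact hu.1 ((hb _ hxu).trans (hb _ hij.symm).symm)

theorem main_result (n : ℕ) (hn : 5 ≤ n) (T : SimpleGraph (Fin n)) (hT : T.IsTree)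
    (m : ℕ) (S : SimpleGraph (Fin m)) (hS : S.IsTree) :
    Nat.card (S →g SimpleGraph.pathGraph n) ≤ Nat.card (S →g T) := by
  classical
  by_cases hsp : (∀ v, ¬ Br4 T v) ∧ (∀ u v, Br3 T u → Br3 T v → u = v)
  · obtain ⟨len, h, hlen⟩ := exists_emb T hT.connected hsp.1 hsp.2
    rw [Fintype.card_fin] at hlen
    exact path_le_of_emb S h n hlen (path_le_fork S hS n hn)
  have hnt : Nontrivial (Fin n) := Fin.nontrivial_iff_two_le.mpr (by omega)
  have hG : ∀ i, ∃ j, T.Adj i j := fun i => hT.connected.preconnected.exists_adj_of_nontrivial i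
  have hd1 : ∀ i, 1 ≤ T.degree i := fun i => (T.degree_pos_iff_exists_adj i).mpr (hG i)
  have hsumN : ∑ i, T.degree i + 2 = 2 * n := by
    have h1 := T.sum_degrees_eq_twice_card_edges
    have h2 := hT.card_edgeFinset
    rw [Fintype.card_fin] at h2
    omega
  have hsum : ∑ i, adjOp T (fun _ => 1) i = 2 * ((n : ℝ) - 1) := by
    simp only [adjOp_one]
    have : ((∑ i, T.degree i + 2 : ℕ) : ℝ) = ((2 * n : ℕ) : ℝ) := by rw [hsumN]
    push_cast at this
    linarith only [this]
  have hleaves : 4 ≤ (Finset.univ.filter fun i => T.degree i = 1).card := by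
    have key : ∀ e : Fin n → ℕ, ∑ i, e i = 2 →
        (∀ i, 2 + e i ≤ T.degree i + (if T.degree i = 1 then 1 else 0)) →
        4 ≤ (Finset.univ.filter fun i => T.degree i = 1).card := by
      intro e he h
      have h1 := Finset.sum_le_sum (s := Finset.univ) fun i _ => h i
      rw [Finset.sum_add_distrib, Finset.sum_add_distrib, he, ← Finset.card_filter] at h1
      simp only [Finset.sum_const, Finset.card_univ, Fintype.card_fin, smul_eq_mul] at h1
      omega
    rw [not_and_or] at hsp
    rcases hsp with h | h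
    · push Not at h
      obtain ⟨v, hv⟩ := h
      have := br4_degree T v hv
      refine key (fun i => if i = v then 2 else 0) (by simp) fun i => ?_
      have := hd1 i
      split_ifs with c1 c2 c2 <;> first | omega | (subst c1; omega)
    · push Not at h
      obtain ⟨u, v, hu, hv, huv⟩ := h
      have := br3_degree T u hu
      have := br3_degree T v hv
      refine key (fun i => (if i = u then 1 else 0) + (if i = v then 1 else 0))
        (by simp [Finset.sum_add_distrib]) fun i => ?_
      have := hd1 i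
      by_cases c1 : i = u
      · subst c1
        simp only [if_true, if_neg huv]
        omega
      · by_cases c2 : i = v
        · subst c2
          simp only [if_true, if_neg c1]
          omega
        · simp only [if_neg c1, if_neg c2]
          split_ifs <;> omega
  obtain ⟨L, hLs, hL⟩ := Finset.exists_subset_card_eq hleaves
  have hL0 : ∀ i ∈ L, T.degree i = 1 := fun i hi => (Finset.mem_filter.mp (hLs hi)).2
  obtain ⟨t, _, ht⟩ := exists_term S hS
  have : (Nat.card (S →g SimpleGraph.pathGraph n) : ℝ) ≤ Nat.card (S →g T) := by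
    rw [ht, ht]
    by_cases h3 : 3 ≤ t.size
    · refine (path_upper n hn (t.size - 3) t (by omega)).trans ?_
      exact four_leaves T hG n (Fintype.card_fin n) hn hsum L hL
        (fun i hi => by rw [adjOp_one, hL0 i hi]; norm_num)
        (fun i hi j hj => leaves_not_adj (by omega) T hT.connected i j (hL0 i hi) (hL0 j hj)) t h3
    by_cases h0 : t.size = 0
    · rw [ev_size_zero _ t h0, ev_size_zero _ t h0]
    by_cases h1 : t.size = 1
    · rw [ev_size_one _ t h1, ev_size_one _ t h1, hsum]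
      refine (sum_le_ends n hn _ 2 1 fun j => ?_).trans (le_of_eq (by ring))
      simp only [path_deg n (by omega)]
      split_ifs <;> norm_num
    · obtain ⟨t', h1', h2⟩ := reroot t (by omega)
      rw [h2, h2, sum_up, sum_up, ev_size_one _ t' (by omega), ev_size_one _ t' (by omega)]
      have a1 : ∑ i, adjOp (SimpleGraph.pathGraph n) (fun _ => 1) i *
          adjOp (SimpleGraph.pathGraph n) (fun _ => 1) i ≤ n * 4 - 2 * 3 := by
        refine sum_le_ends n hn _ 4 3 fun j => ?_
        simp only [path_deg n (by omega)]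
        split_ifs <;> norm_num
      have a2 : ∀ i, 3 * adjOp T (fun _ => 1) i - 2 ≤
          adjOp T (fun _ => 1) i * adjOp T (fun _ => 1) i := by
        intro i
        rw [adjOp_one]
        have := hd1 i
        rcases Nat.lt_or_ge (T.degree i) 2 with h | h
        · rw [show T.degree i = 1 by omega]; norm_num
        · have : (2 : ℝ) ≤ T.degree i := by exact_mod_cast h
          linarith only [this, mul_nonneg_of_nonpos_of_nonpos (Mathlib.Tactic.Linarith.sub_nonpos_of_le (Mathlib.Tactic.Linarith.natCast_nonneg ℝ (T.degree i))) (Mathlib.Tactic.Linarith.sub_nonpos_of_le this), mul_nonneg_of_nonpos_of_nonpos (Mathlib.Tactic.Linarith.sub_nonpos_of_le this) (Mathlib.Tactic.Linarith.sub_nonpos_of_le this)]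
      have a3 := Finset.sum_le_sum (s := Finset.univ) fun i _ => a2 i
      rw [Finset.sum_sub_distrib, ← Finset.mul_sum, hsum] at a3
      simp only [Finset.sum_const, Finset.card_univ, Fintype.card_fin, nsmul_eq_mul] at a3
      linarith only [a1, a3]
  exact_mod_cast this

end Pool.Agent.Work.MP_9e5f8f_co
end
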